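import Pool.Agent.LSS.Main
import Pool.Agent.ETCP.Four

/-!
The trilinear form of a structure with `-1 = 1` all of whose groups `D(c)`, `c ≠ 0`, have
index 2 and are distinct (notes 2211, 2223).
-/

set_option autoImplicit false
set_option linter.unusedSectionVars false

namespace Pool.Agent.TOYW

open QS Pool.Agent.RFT Pool.Agent.AST Pool.Agent.LSS Pool.Agent.ETCP
open Pool.Agent.Helper58.PLine (QData)

variable {V Q : Type} [AddCommGroup V] [Module (ZMod 2) V] {S : QData V Q}

/-- `w ∈ D(q (p, y))` is symmetric in `p`, `y` -/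
theorem G_swap {p y w : V} (h : G S p y w) : G S y p w := by
  obtain ⟨s, u, e, c⟩ := h
  exact ⟨s, u, by rw [e, S.symm], c⟩

/-- `w ∈ D(q (p, y))` is symmetric in `y`, `w` -/
theorem G_rot (he : S.e = 0) {p y w : V} (h : G S p y w) : G S p w y := by
  obtain ⟨a, k, h1, h2, h3⟩ := h.cover he
  exact G.of_cover h2 h1 h3.symm

theorem G_zero {p y : V} (h : C S p y) (w : V) : G S p y w :=
  ⟨0, 0, (show S.q 0 0 = S.q p y from (C.zero (S := S) 0).trans (Eq.symm h)), C.zero' w⟩

/-- additive maps between `F_2`-spaces are linear -/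
def lin {M : Type} [AddCommGroup M] [Module (ZMod 2) M] (f : V → M)
    (h : ∀ a b, f (a + b) = f a + f b) : V →ₗ[ZMod 2] M :=
  (AddMonoidHom.mk' f h).toZModLinearMap 2

@[simp] theorem lin_apply {M : Type} [AddCommGroup M] [Module (ZMod 2) M] (f : V → M)
    (h : ∀ a b, f (a + b) = f a + f b) (a : V) : lin f h a = f a := rfl

/-- The world (G): an alternating trilinear form over `F_2`, linked, such that the kernel of
`τ (a, b, ·)` is covered by the centralizers of the slots of `τ (a, b, ·)`. -/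
structure GWorld (τ : V →ₗ[ZMod 2] V →ₗ[ZMod 2] V →ₗ[ZMod 2] ZMod 2) : Prop where
  alt : ∀ x y, τ x x y = 0
  alt' : ∀ x y, τ x y y = 0
  link : ∀ a b c d, τ a b = τ c d → ∃ x, τ a x = τ a b ∧ τ c x = τ a b
  cov : ∀ a b v, τ a b v = 0 → ∃ s u, τ s u = τ a b ∧ τ s v = 0

theorem GWorld.symm {τ : V →ₗ[ZMod 2] V →ₗ[ZMod 2] V →ₗ[ZMod 2] ZMod 2} (h : GWorld τ)
    (x y v : V) : τ x y v = τ y x v := by
  have h1 := h.alt (x + y) v
  simp only [map_add, LinearMap.add_apply, h.alt, zero_add, add_zero] at h1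
  exact (eo h1).symm

theorem GWorld.rot {τ : V →ₗ[ZMod 2] V →ₗ[ZMod 2] V →ₗ[ZMod 2] ZMod 2} (h : GWorld τ)
    (x y v : V) : τ x y v = τ x v y := by
  have h1 := h.alt' x (y + v)
  simp only [map_add, LinearMap.add_apply, h.alt', zero_add, add_zero] at h1
  exact (eo h1).symm

/-- (H1): every `D(c)`, `c ≠ 0`, has index 2; (H2): the groups `D(c)` are distinct. -/
structure GHyp (S : QData V Q) : Prop where
  he : S.e = 0
  idx : ∀ x y, ¬ C S x y → ∃ φ : V →ₗ[ZMod 2] ZMod 2, φ ≠ 0 ∧ ∀ v, φ v = 0 ↔ G S x y v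
  inj : ∀ a b c d, ¬ C S a b → ¬ C S c d → (∀ v, G S a b v ↔ G S c d v) → S.q a b = S.q c d

section
variable (S)

open Classical in
/-- the indicator of the complement of `D(q (x, y))` -/
noncomputable def tt (x y v : V) : ZMod 2 := if G S x y v then 0 else 1

variable {S}

theorem tt_zero {x y v : V} : tt S x y v = 0 ↔ G S x y v := by
  unfold tt
  split_ifs with h
  · simp [h]
  · simp [h]

theorem tt_congr {x y v x' y' v' : V} (h : G S x y v ↔ G S x' y' v') :
    tt S x y v = tt S x' y' v' := by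
  unfold tt
  by_cases h1 : G S x y v
  · rw [if_pos h1, if_pos (h.1 h1)]
  · rw [if_neg h1, if_neg (fun h2 => h1 (h.2 h2))]

theorem GHyp.ex (h : GHyp S) (x y : V) : ∃ φ : V →ₗ[ZMod 2] ZMod 2, ∀ v, φ v = tt S x y v := by
  by_cases hc : C S x y
  · refine ⟨0, fun v => ?_⟩
    rw [tt_zero.2 (G_zero hc v), LinearMap.zero_apply]
  · obtain ⟨φ, -, hφ⟩ := h.idx x y hc
    refine ⟨φ, fun v => ?_⟩
    rcases ETC.zm (φ v) with h1 | h1
    · rw [h1, tt_zero.2 ((hφ v).1 h1)]
    · have h2 : tt S x y v ≠ 0 := by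
        intro h3
        rw [(hφ v).2 (tt_zero.1 h3)] at h1
        exact zero_ne_one h1
      rcases ETC.zm (tt S x y v) with h3 | h3
      · exact absurd h3 h2
      · rw [h1, h3]

theorem GHyp.add3 (h : GHyp S) (x y v w : V) :
    tt S x y (v + w) = tt S x y v + tt S x y w := by
  obtain ⟨φ, hφ⟩ := h.ex x y
  rw [← hφ, ← hφ, ← hφ, map_add]

theorem GHyp.sw (x y v : V) : tt S x y v = tt S y x v := tt_congr ⟨G_swap, G_swap⟩

theorem GHyp.rt (h : GHyp S) (x y v : V) : tt S x y v = tt S x v y :=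
  tt_congr ⟨G_rot h.he, G_rot h.he⟩

/-- the trilinear form of `S` -/
noncomputable def GHyp.tau (h : GHyp S) :
    V →ₗ[ZMod 2] V →ₗ[ZMod 2] V →ₗ[ZMod 2] ZMod 2 :=
  lin (fun x => lin (fun y => lin (fun v => tt S x y v) (h.add3 x y))
    (fun a b => by
      ext v
      simp only [lin_apply, LinearMap.add_apply]
      rw [h.rt, h.add3, h.rt x v a, h.rt x v b]))
    (fun a b => by
      ext y v
      simp only [lin_apply, LinearMap.add_apply]
      rw [GHyp.sw, h.rt, h.add3, h.rt y v a, h.rt y v b, GHyp.sw y a, GHyp.sw y b])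

@[simp] theorem GHyp.tau_apply (h : GHyp S) (x y v : V) : h.tau x y v = tt S x y v := rfl

theorem GHyp.tau_zero (h : GHyp S) (x y v : V) : h.tau x y v = 0 ↔ G S x y v := tt_zero

/-- `τ (x, y, ·) = 0` iff `q (x, y) = 0` -/
theorem GHyp.tau_eq_zero (h : GHyp S) (x y : V) : h.tau x y = 0 ↔ C S x y := by
  constructor
  · intro h1
    by_contra hc
    obtain ⟨φ, h2, h3⟩ := h.idx x y hc
    apply h2
    ext v
    rw [LinearMap.zero_apply, h3, ← h.tau_zero, h1, LinearMap.zero_apply]
  · intro hc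
    ext v
    rw [LinearMap.zero_apply, h.tau_zero]
    exact G_zero hc v

/-- `τ (a, b, ·) = τ (c, d, ·)` iff `q (a, b) = q (c, d)` -/
theorem GHyp.tau_eq (h : GHyp S) (a b c d : V) : h.tau a b = h.tau c d ↔ S.q a b = S.q c d := by
  constructor
  · intro h1
    by_cases ha : C S a b
    · have h2 := (h.tau_eq_zero a b).2 ha
      rw [h1, h.tau_eq_zero] at h2
      exact Eq.trans ha (Eq.symm h2)
    · by_cases hc : C S c d
      · have h2 := (h.tau_eq_zero c d).2 hc
        rw [← h1, h.tau_eq_zero] at h2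
        exact absurd h2 ha
      · refine h.inj a b c d ha hc fun v => ?_
        rw [← h.tau_zero, ← h.tau_zero, h1]
  · intro h1
    ext v
    simp only [GHyp.tau_apply]
    apply tt_congr
    unfold G
    rw [h1]

/-- **The trilinear form of `S` is a world (G).** -/
theorem GHyp.gworld (h : GHyp S) : GWorld h.tau where
  alt x y := by
    rw [h.tau_zero]
    exact G_zero (C.self h.he x) y
  alt' x y := by
    rw [h.tau_zero]
    exact ⟨y, x, S.symm y x, C.self h.he y⟩
  link a b c d h1 := by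
    obtain ⟨x, h2, h3⟩ := S.link a b c d ((h.tau_eq a b c d).1 h1)
    refine ⟨x, ((h.tau_eq a b a x).2 h2).symm, ?_⟩
    rw [h1]
    exact ((h.tau_eq c d c x).2 h3).symm
  cov a b v h1 := by
    obtain ⟨s, u, h2, h3⟩ := (h.tau_zero a b v).1 h1
    exact ⟨s, u, (h.tau_eq s u a b).2 h2, (h.tau_eq_zero s v).2 h3⟩

end

end Pool.Agent.TOYW
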