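import Pool.Agent.TOYW.Defs

/-!
Statements of the modules of the proof that a toy world is `φ ∧ ω`.
-/

namespace Pool.Agent.TOYW

open Pool.Agent.ESL Finset
open scoped Classical

/-- T0: sizes -/
def Stmt_card : Prop := ∀ (V : Type) [AddCommGroup V] [Module (ZMod 2) V] [Fintype V] (T : Toy V),
  (∀ x, (T.vx x).card * 4 ^ T.rho x = Fintype.card V) ∧
  (∀ x, (T.qx x).card = 4 ^ T.rho x) ∧
  (∀ x c, c ∈ T.qx x ↔ ∀ v ∈ T.vx x, c v = 0) ∧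
  (∀ x y, (T.vx x ∩ T.vx y).card * 2 ^ (T.rho x + T.rho y + T.rho (x + y)) = Fintype.card V)

/-- TA: every functional is a value -/
def Stmt_att : Prop := ∀ (V : Type) [AddCommGroup V] [Module (ZMod 2) V] [Fintype V] (T : Toy V) (c : D V),
  c ≠ 0 → ∃ x y, T.t x y = c

/-- T2: there is a rigid element, and all ranks are `1` or maximal -/
def Stmt_dich : Prop := ∀ (V : Type) [AddCommGroup V] [Module (ZMod 2) V] [Fintype V] (T : Toy V),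
  (∃ x : V, x ≠ 0) → ∃ b : V, b ≠ 0 ∧ (∀ y, T.t b y = 0 → y = 0 ∨ y = b) ∧
    (Fintype.card V = 8 ∨ (2 ≤ T.rho b ∧ ∀ y, y ≠ 0 → T.rho y = 1 ∨ T.rho y = T.rho b))

/-- T3: `t = φ ∧ ω` -/
def Stmt_struct : Prop := ∀ (V : Type) [AddCommGroup V] [Module (ZMod 2) V] [Fintype V] (T : Toy V),
  (∃ x : V, x ≠ 0) → ∃ φ : D V, φ ≠ 0 ∧ (∀ x y, φ x = 1 → T.t x y = 0 → y = 0 ∨ y = x) ∧
    ∀ x y, φ x = 0 → φ y = 0 → T.t x y = 0 ∨ T.t x y = φ

end Pool.Agent.TOYW
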