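import Pool.Agent.TOYW.ToToy
import Pool.Agent.TOYW.Stmts
import Pool.Agent.ETG.QXT
import Pool.Agent.ETG.QLO
import Pool.Agent.ETG.QRD
import Pool.Agent.ETG.QPR
import Pool.Agent.ETG.QEX
import Pool.Agent.ETG.QIS
import Pool.Agent.ETG.RIG

/-!
From the structure theorem of toy worlds to quaternionic structures: if all groups `D(β)`,
`β ≠ 0`, have index two and are distinct, the structure is of elementary type.
-/

set_option autoImplicit false
set_option linter.unusedSectionVars false

namespace Pool.Agent.TOYW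

open QS Pool.Agent.ETCP Pool.Agent.ETG
open Pool.Agent.Helper58.PLine (QData)

theorem w_z2 (a : ZMod 2) : a = 0 ∨ a = 1 := by
  revert a; decide

theorem w_addl {V : Type} [AddCommGroup V] [Module (ZMod 2) V] {x y z : V} (h : x = y + z) :
    y + x = z := by
  rw [h, ← add_assoc, ZModModule.add_self, zero_add]

section data

variable {V Q : Type} [AddCommGroup V] [Module (ZMod 2) V] {S : QData V Q}

theorem eqq_iff (a b c d : V) : EqQ (C S) a b c d ↔ S.q a b = S.q c d := by
  constructor
  · rintro ⟨x, h1, h2, h3⟩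
    rw [q_eq h1, q_eq h2, q_eq' h3]
  · intro h
    exact link h

theorem lz_data (he : S.e = 0) : LZ (C S) where
  symm := fun _ _ h => h.symm
  zero := C.zero
  add := fun _ _ _ h h' => h.add h'
  alt := C.self he
  trans := fun a b c d a' b' h h' => by
    rw [eqq_iff] at h h' ⊢
    exact h.trans h'

/-- nondegenerate case -/
theorem etz_nd (hstr : Stmt_struct) [Finite V] (h : GHyp S)
    (hnd : ∀ x, (∀ y, C S x y) → x = 0) : ETZ (C S) := by
  classical
  have : Fintype V := Fintype.ofFinite V
  by_cases hV : ∃ x : V, x ≠ 0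
  swap
  · push Not at hV
    intro T hT
    obtain ⟨-, e, -⟩ := hT
    apply QS.ElemType.L0
    rw [← Nat.card_congr e.toEquiv, Nat.card_eq_one_iff_unique]
    exact ⟨⟨fun a b => (hV a).trans (hV b).symm⟩, ⟨(1 : Multiplicative V)⟩⟩
  set T := h.toToy hnd with hT
  obtain ⟨φ, hφ0, hφ1, hφ2⟩ := hstr V T hV
  have hC : ∀ x y, C S x y ↔ T.t x y = 0 := fun x y => (h.toToy_zero hnd x y).symm
  have hQ : ∀ a b c d, S.q a b = S.q c d ↔ T.t a b = T.t c d :=
    fun a b c d => (h.toToy_eq hnd a b c d).symm
  obtain ⟨t, ht⟩ : ∃ t, φ t = 1 := by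
    by_contra hh
    push Not at hh
    exact hφ0 (LinearMap.ext fun z => (w_z2 (φ z)).resolve_right (hh z))
  have ht0 : t ≠ 0 := by
    rintro rfl
    rw [map_zero] at ht
    exact zero_ne_one ht
  have hLZ := lz_data h.he
  have htt : ∀ x, T.t x x = 0 := T.alt
  -- `t x y x = 0`
  have hxyx : ∀ x y, T.t x y x = 0 := by
    intro x y
    rw [T.symm' x y x, htt]
    rfl
  have hxyy : ∀ x y, T.t x y y = 0 := by
    intro x y
    rw [T.symm x y, hxyx]
  -- values equal to `φ` have slots in the kernel
  have hker : ∀ x y, T.t x y = φ → φ x = 0 ∧ φ y = 0 := by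
    intro x y hxy
    rw [← hxy]
    exact ⟨hxyx x y, hxyy x y⟩
  have hnd' : ND (C S) := fun w hw => hnd w hw
  have hrig : Rig (C S) t := ⟨ht0, fun v hv => hφ1 t v ht ((hC t v).1 hv)⟩
  -- the projection
  let U : Submodule (ZMod 2) V := LinearMap.ker φ
  have hp : ∀ v, v + φ v • t ∈ U := by
    intro v
    rw [LinearMap.mem_ker, map_add, map_smul, ht, smul_eq_mul, mul_one, ZModModule.add_self]
  let ρ : V →ₗ[ZMod 2] U :=
    LinearMap.codRestrict U (LinearMap.id + φ.smulRight t) hp
  have hρ : ∀ v, (ρ v : V) = v + φ v • t := fun v => rfl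
  have hρU : ∀ u : U, ρ u = u := by
    intro u
    apply Subtype.ext
    rw [hρ, show φ (u : V) = 0 from u.2, zero_smul, add_zero]
  let ZU : U → U → Prop := fun a b => C S (a : V) (b : V)
  have hval : ∀ a b : U, T.t (a : V) (b : V) = 0 ∨ T.t (a : V) (b : V) = φ := fun a b =>
    hφ2 a b a.2 b.2
  -- equality in `U`
  have hEq : ∀ a b c d : U, EqQ ZU a b c d ↔ EqQ (C S) (a : V) b c d := by
    intro a b c d
    constructor
    · rintro ⟨x, h1, h2, h3⟩
      exact ⟨x, h1, h2, h3⟩
    · intro h0
      have h1 := (eqq_iff _ _ _ _).1 h0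
      have h2 := (hQ _ _ _ _).1 h1
      rcases hval a b with h3 | h3
      · refine ⟨0, ?_, ?_, ?_⟩
        · show C S (a : V) ((b + 0 : U) : V)
          rw [add_zero, hC]
          exact h3
        · show C S (c : V) ((d + 0 : U) : V)
          rw [add_zero, hC, ← h2]
          exact h3
        · exact C.zero _
      · obtain ⟨x, h4, h5, h6⟩ := h0
        have h7 : T.t a x = φ := by
          have := (hC _ _).1 h4
          rw [map_add, h3] at this
          have h8 := congrArg (fun z => φ + z) this
          simp only [add_zero] at h8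
          rwa [← add_assoc, ZModModule.add_self, zero_add] at h8
        have h8 : φ x = 0 := (hker _ _ h7).2
        exact ⟨⟨x, h8⟩, h4, h5, h6⟩
  have hLZU : LZ ZU :=
    { symm := fun _ _ h => h.symm
      zero := fun a => C.zero _
      add := fun _ _ _ h h' => h.add h'
      alt := fun a => C.self h.he _
      trans := fun a b c d a' b' h1 h2 => by
        rw [hEq] at h1 h2 ⊢
        exact hLZ.trans _ _ _ _ _ _ h1 h2 }
  have hNDU : ND ZU := by
    intro w hw
    apply Subtype.ext
    apply hnd
    intro y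
    have h1 : C S (w : V) (ρ y : V) := hw (ρ y)
    have h2 : T.t (w : V) t = 0 := by
      apply LinearMap.ext
      intro z
      have h3 : T.t (w : V) t (ρ z : V) = 0 := by
        rw [T.symm' (w : V) t (ρ z : V), (hC _ _).1 (hw (ρ z))]
        rfl
      rw [hρ, map_add, map_smul, hxyy, smul_zero, add_zero] at h3
      exact h3
    have h3 : C S (w : V) t := (hC _ _).2 h2
    rw [hρ] at h1
    rcases w_z2 (φ y) with h4 | h4
    · rwa [h4, zero_smul, add_zero] at h1
    · rw [h4, one_smul] at h1
      have h5 := h1.add h3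
      rwa [add_assoc, ZModModule.add_self, add_zero] at h5
  have hloc : ZLoc ZU LinearMap.id := by
    intro v w w'
    show C S (v : V) w ∨ C S (v : V) w' ∨ C S (v : V) ((w + w' : U) : V)
    rcases hval v w with h1 | h1
    · left; exact (hC _ _).2 h1
    rcases hval v w' with h2 | h2
    · right; left; exact (hC _ _).2 h2
    · right; right
      rw [hC, Submodule.coe_add, map_add, h1, h2, ZModModule.add_self]
  have a_qpr : Stmt_QPR := qpr_proof qex_proof qis_proof
  have a_qrd : Stmt_QRD := qrd_proof a_qpr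
  have a_qxt : Stmt_QXT := qxt_proof rig_proof qex_proof qis_proof
  have a_qlo : Stmt_QLO := qlo_proof a_qxt a_qrd
  have hEU : ETZ ZU := a_qlo U ZU hLZU hNDU hloc
  refine a_qxt V U (C S) ZU t ρ hLZ hnd' hrig hLZU (fun u => ⟨u, hρU u⟩) ?_ ?_ hEU
  · intro v
    constructor
    · intro h1
      have h2 : v + φ v • t = 0 := by
        rw [← hρ, h1]; rfl
      have h3 := eo h2
      rcases w_z2 (φ v) with h4 | h4
      · left; rw [h3, h4, zero_smul]
      · right; rw [h3, h4, one_smul]
    · rintro (rfl | rfl)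
      · exact map_zero _
      · apply Subtype.ext
        rw [hρ, ht, one_smul, ZModModule.add_self]
        rfl
  · intro v w
    show C S (ρ v : V) (ρ w : V) ↔ ∃ a, EqQ (C S) v w t a
    -- `t v w = t (ρ v) (ρ w) + t t (φ w • ρ v + φ v • ρ w)`
    have key : T.t v w = T.t (ρ v : V) (ρ w : V) +
        T.t t (φ w • (ρ v : V) + φ v • (ρ w : V)) := by
      have e1 : v = (ρ v : V) + φ v • t := by
        rw [hρ, add_assoc, ← add_smul, ZModModule.add_self, zero_smul, add_zero]
      have e2 : w = (ρ w : V) + φ w • t := by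
        rw [hρ, add_assoc, ← add_smul, ZModModule.add_self, zero_smul, add_zero]
      conv_lhs => rw [e1, e2]
      simp only [map_add, LinearMap.add_apply, map_smul, LinearMap.smul_apply, htt, smul_zero,
        add_zero]
      rw [T.symm t (ρ v : V), T.symm t (ρ w : V)]
      abel
    constructor
    · intro h1
      refine ⟨φ w • (ρ v : V) + φ v • (ρ w : V), ?_⟩
      rw [eqq_iff, hQ, key, (hC _ _).1 h1, zero_add]
    · rintro ⟨a, ha⟩
      rw [eqq_iff, hQ, key] at ha
      rw [hC]
      rcases hval (ρ v) (ρ w) with h1 | h1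
      · exact h1
      · exfalso
        rw [h1] at ha
        have h2 : φ = T.t t (a + (φ w • (ρ v : V) + φ v • (ρ w : V))) := by
          rw [map_add, ← ha, add_assoc, ZModModule.add_self, add_zero]
        have h3 := (hker _ _ h2.symm).1
        rw [ht] at h3
        exact one_ne_zero h3

/-- the radical -/
def rad (S : QData V Q) : Submodule (ZMod 2) V where
  carrier := {x | ∀ y, C S x y}
  add_mem' := fun h h' y => (h y).add' (h' y)
  zero_mem' := fun y => C.zero' y
  smul_mem' := by
    intro c x hx y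
    rcases w_z2 c with rfl | rfl
    · rw [zero_smul]; exact C.zero' y
    · rw [one_smul]; exact hx y

theorem mem_rad {x : V} : x ∈ rad S ↔ ∀ y, C S x y := Iff.rfl

theorem dec {W : Submodule (ZMod 2) V} (hW : IsCompl (rad S) W) (x : V) :
    ∃ w : W, ∀ y, S.q x y = S.q w y := by
  have h1 : x ∈ rad S ⊔ W := by rw [hW.sup_eq_top]; trivial
  obtain ⟨r, hr, w, hw, rfl⟩ := Submodule.mem_sup.1 h1
  refine ⟨⟨w, hw⟩, fun y => q_eq' ?_⟩
  have h2 : C S r y := hr y
  exact h2.of_eq (by rw [add_assoc, ZModModule.add_self, add_zero]) rfl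

/-- restriction to a complement of the radical -/
def resD (S : QData V Q) {W : Submodule (ZMod 2) V} (hW : IsCompl (rad S) W)
    (he : S.e = 0) : QData W Q where
  q := fun a b => S.q a b
  z := S.z
  e := 0
  symm := fun a b => S.symm a b
  add := fun a b c => S.add a b c
  diag := by
    intro a
    have := C.self he (a : V)
    rw [add_zero]
    exact this
  link := by
    intro a b c d h
    obtain ⟨x, h1, h2⟩ := S.link a b c d h
    obtain ⟨w, hw⟩ := dec hW x
    refine ⟨w, ?_, ?_⟩
    · rw [h1, S.symm, hw, S.symm]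
    · rw [h2, S.symm, hw, S.symm]

theorem resG {W : Submodule (ZMod 2) V} (hW : IsCompl (rad S) W) (he : S.e = 0) (a b v : W) :
    G (resD S hW he) a b v ↔ G S (a : V) b v := by
  constructor
  · rintro ⟨s, u, h1, h2⟩
    exact ⟨s, u, h1, h2⟩
  · rintro ⟨s, u, h1, h2⟩
    obtain ⟨s', hs⟩ := dec hW s
    obtain ⟨u', hu⟩ := dec hW u
    refine ⟨s', u', ?_, ?_⟩
    · show S.q s' u' = S.q a b
      rw [← h1, hs, S.symm (s' : V), ← hu, S.symm u]
    · show S.q s' v = S.z
      rw [← hs]
      exact h2

theorem G_rad {a b r : V} (hr : r ∈ rad S) : G S a b r := ⟨a, b, rfl, (hr a).symm⟩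

theorem G_split {a b r w : V} (hr : r ∈ rad S) : G S a b (r + w) ↔ G S a b w := by
  constructor
  · intro h
    have h1 := (G_rad (a := a) (b := b) hr).add h
    rwa [← add_assoc, ZModModule.add_self, zero_add] at h1
  · intro h
    exact (G_rad hr).add h

theorem resH {W : Submodule (ZMod 2) V} (hW : IsCompl (rad S) W) (h : GHyp S) :
    GHyp (resD S hW h.he) where
  he := rfl
  idx := by
    intro x y hxy
    obtain ⟨φ, h0, hφ⟩ := h.idx x y hxy
    refine ⟨φ.comp W.subtype, ?_, fun v => ?_⟩
    · intro h1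
      apply h0
      apply LinearMap.ext
      intro v
      have h2 : v ∈ rad S ⊔ W := by rw [hW.sup_eq_top]; trivial
      obtain ⟨r, hr, w, hw, rfl⟩ := Submodule.mem_sup.1 h2
      have h3 : φ r = 0 := (hφ r).2 (G_rad hr)
      have h4 : φ w = 0 := LinearMap.congr_fun h1 ⟨w, hw⟩
      rw [map_add, h3, h4, add_zero]
      rfl
    · rw [resG, ← hφ]
      rfl
  inj := by
    intro a b c d h1 h2 h3
    refine h.inj a b c d h1 h2 fun v => ?_
    have h4 : v ∈ rad S ⊔ W := by rw [hW.sup_eq_top]; trivial
    obtain ⟨r, hr, w, hw, rfl⟩ := Submodule.mem_sup.1 h4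
    rw [G_split hr, G_split hr]
    have h5 := h3 ⟨w, hw⟩
    rw [resG, resG] at h5
    exact h5

/-- general case -/
theorem etz_gen (hstr : Stmt_struct) [Finite V] (h : GHyp S) : ETZ (C S) := by
  obtain ⟨W, hW⟩ := Submodule.exists_isCompl (rad S)
  have a_qpr : Stmt_QPR := qpr_proof qex_proof qis_proof
  have a_qrd : Stmt_QRD := qrd_proof a_qpr
  have h1 : ETZ (C (resD S hW h.he)) := by
    refine etz_nd hstr (resH hW h) ?_
    intro x hx
    have h2 : (x : V) ∈ rad S := by
      intro y
      obtain ⟨w, hw⟩ := dec hW y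
      have h3 : C S (w : V) x := (hx w).symm
      show S.q x y = S.z
      rw [S.symm, hw]
      exact h3
    have h3 : (x : V) ∈ rad S ⊓ W := ⟨h2, x.2⟩
    rw [hW.inf_eq_bot, Submodule.mem_bot] at h3
    exact Subtype.ext h3
  have h2 : ETZ (fun _ _ : rad S => True) := a_qrd _ _ fun _ _ => trivial
  let e := (Submodule.prodEquivOfIsCompl (rad S) W hW).symm
  refine a_qpr V (rad S) W (C S) (fun _ _ => True) (C (resD S hW h.he)) e.toAddEquiv
    (QRD_.lzT _) (lz_data rfl) ?_ h2 h1
  intro a b
  have key : ∀ v : V, v = ((e v).1 : V) + ((e v).2 : V) := by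
    intro v
    have := (Submodule.prodEquivOfIsCompl (rad S) W hW).apply_symm_apply v
    rw [Submodule.coe_prodEquivOfIsCompl'] at this
    exact this.symm
  constructor
  · intro hab
    refine ⟨trivial, ?_⟩
    have h3 : C S ((e a).1 : V) b := (e a).1.2 b
    have h4 : C S ((e a).2 : V) b := by
      have h5 := h3.add' hab
      exact h5.of_eq (w_addl (key a)) rfl
    have h6 : C S ((e b).1 : V) ((e a).2 : V) := (e b).1.2 _
    have h7 := (h6.add' h4.symm).symm
    exact h7.of_eq rfl (w_addl (key b))
  · rintro ⟨-, h3⟩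
    have h3' : C S ((e a).2 : V) ((e b).2 : V) := h3
    have h4 : C S ((e a).1 : V) b := (e a).1.2 b
    have h5 : C S ((e b).1 : V) ((e a).2 : V) := (e b).1.2 _
    have h6 : C S ((e a).2 : V) b := (h5.symm.add h3').of_eq rfl (key b).symm
    exact (h4.add' h6).of_eq (key a).symm rfl

end data

/-! ### Quaternionic structures -/

/-- the value group `D(β)`: the elements commuting with a slot of `β` -/
def DD (S : QStruct) (β : S.Q) : Set S.G := {v | ∃ s u, S.q s u = β ∧ S.q s v = S.zero}

theorem ghyp_of (S : QStruct) (hneg : S.neg = 1)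
    (h1 : ∀ β, β ≠ S.zero → ∃ H : Subgroup S.G, H.index = 2 ∧ (H : Set S.G) = DD S β)
    (h2 : ∀ β γ, β ≠ S.zero → γ ≠ S.zero → DD S β = DD S γ → β = γ) :
    GHyp (Pool.Agent.AST.toD S hneg) where
  he := rfl
  idx := by
    classical
    intro x y hxy
    obtain ⟨H, hH2, hH⟩ := h1 (S.q (Additive.toMul x) (Additive.toMul y)) hxy
    have hmul : ∀ a b : S.G, a ∉ H → b ∉ H → a * b ∈ H := fun a b ha hb =>
      (Subgroup.mul_mem_iff_of_index_two hH2).2 (iff_of_false ha hb)
    let f : Additive S.G →+ ZMod 2 :=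
      { toFun := fun a => if Additive.toMul a ∈ H then 0 else 1
        map_zero' := by
          show (if (1 : S.G) ∈ H then (0 : ZMod 2) else 1) = 0
          rw [if_pos H.one_mem]
        map_add' := by
          intro a b
          show (if Additive.toMul a * Additive.toMul b ∈ H then (0 : ZMod 2) else 1) = _
          by_cases ha : Additive.toMul a ∈ H <;> by_cases hb : Additive.toMul b ∈ H
          · rw [if_pos ha, if_pos hb, if_pos (H.mul_mem ha hb), add_zero]
          · rw [if_pos ha, if_neg hb, if_neg, zero_add]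
            intro h
            exact hb ((Subgroup.mul_mem_iff_of_index_two hH2).1 h |>.1 ha)
          · rw [if_neg ha, if_pos hb, if_neg, add_zero]
            intro h
            exact ha ((Subgroup.mul_mem_iff_of_index_two hH2).1 h |>.2 hb)
          · rw [if_neg ha, if_neg hb, if_pos (hmul _ _ ha hb)]
            decide }
    let φ : Additive S.G →ₗ[ZMod 2] ZMod 2 := f.toZModLinearMap 2
    have hφ : ∀ a, φ a = 0 ↔ Additive.toMul a ∈ H := by
      intro a
      show (if Additive.toMul a ∈ H then (0 : ZMod 2) else 1) = 0 ↔ _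
      split_ifs with h
      · exact ⟨fun _ => h, fun _ => rfl⟩
      · exact ⟨fun h' => absurd h' (by decide), fun h' => absurd h' h⟩
    refine ⟨φ, ?_, ?_⟩
    · intro h0
      have hT : H ≠ ⊤ := by
        rintro rfl
        rw [Subgroup.index_top] at hH2
        exact absurd hH2 (by norm_num)
      apply hT
      rw [Subgroup.eq_top_iff']
      intro a
      exact (hφ (Additive.ofMul a)).1 (by rw [h0]; rfl)
    · intro v
      rw [hφ, ← SetLike.mem_coe, hH]
      constructor
      · rintro ⟨s, u, h3, h4⟩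
        exact ⟨Additive.ofMul s, Additive.ofMul u, h3, h4⟩
      · rintro ⟨s, u, h3, h4⟩
        exact ⟨Additive.toMul s, Additive.toMul u, h3, h4⟩
  inj := by
    intro a b c d hab hcd h
    refine h2 _ _ hab hcd ?_
    ext v
    have h3 := h (Additive.ofMul v)
    constructor
    · rintro ⟨s, u, h4, h5⟩
      obtain ⟨s', u', h6, h7⟩ := h3.1 ⟨Additive.ofMul s, Additive.ofMul u, h4, h5⟩
      exact ⟨Additive.toMul s', Additive.toMul u', h6, h7⟩
    · rintro ⟨s, u, h4, h5⟩
      obtain ⟨s', u', h6, h7⟩ := h3.2 ⟨Additive.ofMul s, Additive.ofMul u, h4, h5⟩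
      exact ⟨Additive.toMul s', Additive.toMul u', h6, h7⟩

/-- **If all groups `D(β)`, `β ≠ 0`, have index two and are distinct, a finite quaternionic
structure with `-1 = 1` is of elementary type.** -/
theorem elem_of_struct (hstr : Stmt_struct) (S : QStruct) [Finite S.G] (hneg : S.neg = 1)
    (h1 : ∀ β, β ≠ S.zero → ∃ H : Subgroup S.G, H.index = 2 ∧ (H : Set S.G) = DD S β)
    (h2 : ∀ β γ, β ≠ S.zero → γ ≠ S.zero → DD S β = DD S γ → β = γ) : ElemType S := by
  have hf : Finite (Additive S.G) := inferInstanceAs (Finite S.G)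
  exact etz_gen hstr (ghyp_of S hneg h1 h2) S (Pool.Agent.AST.qof S hneg)

end Pool.Agent.TOYW
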