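import Pool.Agent.TOYW.Basic

/-!
Every non-zero functional is a value in a toy world (Fourier transform of `2 ^ (-rho)` is non-negative).
-/

set_option linter.unusedSectionVars false
set_option linter.unusedVariables false

namespace Pool.Agent.TOYW

open Pool.Agent.ESL Finset
open scoped Classical

variable {V : Type} [AddCommGroup V] [Module (ZMod 2) V] [Fintype V]

/-- the sign character of `F_2` -/
def sg (a : ZMod 2) : ℚ := if a = 0 then 1 else -1

theorem sg_zero : sg 0 = 1 := by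
  unfold sg; rw [if_pos rfl]

theorem sg_one : sg 1 = -1 := by
  unfold sg; rw [if_neg (by decide)]

theorem sg_add (a b : ZMod 2) : sg (a + b) = sg a * sg b := by
  rcases zm a with rfl | rfl <;> rcases zm b with rfl | rfl
  · rw [add_zero, sg_zero]; norm_num
  · rw [zero_add, sg_zero, sg_one]; norm_num
  · rw [add_zero, sg_zero, sg_one]; norm_num
  · rw [show (1 : ZMod 2) + 1 = 0 by decide, sg_zero, sg_one]; norm_num

theorem sum_sg (c : D V) (W : Submodule (ZMod 2) V) (x0 : V) (h0 : x0 ∈ W) (h1 : c x0 ≠ 0) :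
    ∑ x ∈ univ.filter (fun x => x ∈ W), sg (c x) = 0 := by
  have h1' : c x0 = 1 := by
    generalize c x0 = a at h1
    revert a; decide
  have h := sum_nbij' (s := univ.filter (fun x => x ∈ W)) (t := univ.filter (fun x => x ∈ W))
    (f := fun x => sg (c x)) (g := fun x => - sg (c x)) (fun x => x + x0) (fun x => x + x0)
    (by intro x hx; rw [mem_filter] at hx ⊢; exact ⟨mem_univ _, W.add_mem hx.2 h0⟩)
    (by intro x hx; rw [mem_filter] at hx ⊢; exact ⟨mem_univ _, W.add_mem hx.2 h0⟩)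
    (by intro x _; exact add_add_self' x x0)
    (by intro x _; exact add_add_self' x x0)
    (by
      intro x _
      rw [map_add, sg_add, h1', sg_one]
      ring)
  rw [sum_neg_distrib] at h
  linarith

theorem sum_sg_dual (x : V) (hx : x ≠ 0) : ∑ τ : D V, sg (τ x) = 0 := by
  have : ∃ η : D V, η x ≠ 0 := by
    by_contra hh
    push Not at hh
    exact hx ((Module.forall_dual_apply_eq_zero_iff (ZMod 2) x).1 hh)
  obtain ⟨η, hη⟩ := this
  have h1' : η x = 1 := by
    generalize η x = a at hη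
    revert a; decide
  have h := sum_nbij' (s := (univ : Finset (D V))) (t := (univ : Finset (D V)))
    (f := fun τ => sg (τ x)) (g := fun τ => - sg (τ x)) (fun τ => τ + η) (fun τ => τ + η)
    (by intro τ _; exact mem_univ _)
    (by intro τ _; exact mem_univ _)
    (by intro τ _; exact add_add_self' τ η)
    (by intro τ _; exact add_add_self' τ η)
    (by
      intro τ _
      rw [LinearMap.add_apply, sg_add, h1', sg_one]
      ring)
  rw [sum_neg_distrib] at h
  linarith

namespace Toy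

variable (T : Toy V)

/-- `2 ^ (-ρ x)` -/
noncomputable def gg (x : V) : ℚ := ((2 : ℚ) ^ T.rho x)⁻¹

/-- Fourier transform of `gg` -/
noncomputable def mu (η : D V) : ℚ := ∑ x, T.gg x * sg (η x)

theorem gg_pos (x : V) : 0 < T.gg x := by
  unfold gg; positivity

theorem inter_gg (x y : V) :
    (2 : ℚ) ^ T.rho x * 2 ^ T.rho y * ((T.vx x ∩ T.vx y).card : ℚ) = (2 ^ fr V : ℚ) * T.gg (x + y) := by
  have h := T.inter_card x y
  have h' : (((T.vx x ∩ T.vx y).card : ℚ)) * 2 ^ (T.rho x + T.rho y + T.rho (x + y)) = 2 ^ fr V := by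
    exact_mod_cast h
  rw [pow_add, pow_add] at h'
  unfold gg
  have hp : (2 : ℚ) ^ T.rho (x + y) ≠ 0 := by positivity
  field_simp
  linarith

theorem mu_sq (η : D V) :
    (2 ^ fr V : ℚ) * ((2 ^ fr V : ℚ) * T.mu η) =
      ∑ z, (∑ x ∈ T.vx z, sg (η x) * (2 : ℚ) ^ T.rho x) ^ 2 := by
  have e1 : ∀ z, (∑ x ∈ T.vx z, sg (η x) * (2 : ℚ) ^ T.rho x) ^ 2 =
      ∑ x, ∑ y, (sg (η x) * (2 : ℚ) ^ T.rho x) * (sg (η y) * (2 : ℚ) ^ T.rho y) *
        (if z ∈ T.vx x ∩ T.vx y then 1 else 0) := by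
    intro z
    rw [pow_two, sum_mul_sum, vx, sum_filter]
    apply sum_congr rfl
    intro x _
    by_cases hx : T.t z x = 0
    · rw [if_pos hx, sum_filter]
      apply sum_congr rfl
      intro y _
      by_cases hy : T.t z y = 0
      · have : z ∈ T.vx x ∩ T.vx y := by
          rw [mem_inter, mem_vx, mem_vx]; exact ⟨T.comm.1 hx, T.comm.1 hy⟩
        rw [if_pos hy, if_pos this, mul_one]
      · have : z ∉ T.vx x ∩ T.vx y := by
          rw [mem_inter, mem_vx, mem_vx]; exact fun h => hy (T.comm.1 h.2)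
        rw [if_neg hy, if_neg this, mul_zero]
    · rw [if_neg hx]
      symm
      apply sum_eq_zero
      intro y _
      have : z ∉ T.vx x ∩ T.vx y := by
        rw [mem_inter, mem_vx, mem_vx]; exact fun h => hx (T.comm.1 h.1)
      rw [if_neg this, mul_zero]
  rw [sum_congr rfl (fun z _ => e1 z), sum_comm]
  have e2 : ∀ x : V, (∑ z, ∑ y, (sg (η x) * (2 : ℚ) ^ T.rho x) * (sg (η y) * (2 : ℚ) ^ T.rho y) *
        (if z ∈ T.vx x ∩ T.vx y then 1 else 0)) = (2 ^ fr V : ℚ) * T.mu η := by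
    intro x
    rw [sum_comm]
    have e3 : ∀ y : V, (∑ z, (sg (η x) * (2 : ℚ) ^ T.rho x) * (sg (η y) * (2 : ℚ) ^ T.rho y) *
        (if z ∈ T.vx x ∩ T.vx y then (1 : ℚ) else 0)) = (2 ^ fr V : ℚ) * (T.gg (x + y) * sg (η (x + y))) := by
      intro y
      rw [← mul_sum, sum_boole, map_add, sg_add]
      have : (univ.filter (fun z => z ∈ T.vx x ∩ T.vx y)) = T.vx x ∩ T.vx y := by
        ext z; simp
      rw [this]
      have h := T.inter_gg x y
      linear_combination (sg (η x) * sg (η y)) * h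
    rw [sum_congr rfl (fun y _ => e3 y), ← mul_sum]
    congr 1
    unfold mu
    apply sum_nbij' (fun y => x + y) (fun y => x + y)
    · intro y _; exact mem_univ _
    · intro y _; exact mem_univ _
    · intro y _; show x + (x + y) = y; rw [← add_assoc, add_self', zero_add]
    · intro y _; show x + (x + y) = y; rw [← add_assoc, add_self', zero_add]
    · intro y _; rfl
  rw [sum_congr rfl (fun x _ => e2 x), sum_const, card_univ, card_pow, nsmul_eq_mul]
  push_cast
  ring

theorem mu_nonneg (η : D V) : 0 ≤ T.mu η := by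
  have h := T.mu_sq η
  have h2 : 0 ≤ ∑ z, (∑ x ∈ T.vx z, sg (η x) * (2 : ℚ) ^ T.rho x) ^ 2 := sum_nonneg (fun z _ => sq_nonneg _)
  rw [← h] at h2
  have hp : (0 : ℚ) < 2 ^ fr V := by positivity
  by_contra hc
  push Not at hc
  have : (2 ^ fr V : ℚ) * ((2 ^ fr V : ℚ) * T.mu η) < 0 := by
    apply mul_neg_of_pos_of_neg hp
    exact mul_neg_of_pos_of_neg hp hc
  linarith

theorem mu_pos (η : D V) (z : V) (hz : ∀ v, T.t z v = 0 → η v = 0) : 0 < T.mu η := by
  have h := T.mu_sq η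
  have h3 : (∑ x ∈ T.vx z, sg (η x) * (2 : ℚ) ^ T.rho x) ^ 2 ≤
      ∑ z, (∑ x ∈ T.vx z, sg (η x) * (2 : ℚ) ^ T.rho x) ^ 2 :=
    single_le_sum (f := fun z => (∑ x ∈ T.vx z, sg (η x) * (2 : ℚ) ^ T.rho x) ^ 2)
      (fun z _ => sq_nonneg _) (mem_univ z)
  have h4 : 0 < ∑ x ∈ T.vx z, sg (η x) * (2 : ℚ) ^ T.rho x := by
    apply sum_pos
    · intro x hx
      rw [hz x (mem_vx.1 hx), sg_zero]
      positivity
    · exact ⟨0, by rw [mem_vx]; exact map_zero _⟩
  rw [← h] at h3
  have h5 : 0 < (∑ x ∈ T.vx z, sg (η x) * (2 : ℚ) ^ T.rho x) ^ 2 := by positivity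
  have hp : (0 : ℚ) < 2 ^ fr V := by positivity
  have h6 : 0 < (2 ^ fr V : ℚ) * ((2 ^ fr V : ℚ) * T.mu η) := lt_of_lt_of_le h5 h3
  have h7 := (mul_pos_iff_of_pos_left hp).1 h6
  exact (mul_pos_iff_of_pos_left hp).1 h7

/-- the indicator of `c ∈ Q_x` -/
theorem ind_qx (x : V) (c : D V) :
    (∑ v ∈ T.vx x, sg (c v)) = if c ∈ T.qx x then ((T.vx x).card : ℚ) else 0 := by
  by_cases h : c ∈ T.qx x
  · rw [if_pos h]
    rw [sum_congr rfl (g := fun _ => (1 : ℚ))]
    · rw [sum_const, nsmul_eq_mul, mul_one]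
    · intro v hv
      rw [(T.qx_iff x c).1 h v (mem_vx.1 hv), sg_zero]
  · rw [if_neg h]
    rw [T.qx_iff] at h
    push Not at h
    obtain ⟨v, hv, hv'⟩ := h
    rw [vx_eq]
    exact sum_sg c _ v hv hv'

/-- third moment identity -/
theorem moment (c c' : D V) :
    ∑ x, (∑ v ∈ T.vx x, sg (c v)) * (∑ w ∈ T.vx x, sg (c' w)) =
      ∑ v, ∑ w, sg (c v) * sg (c' w) * ((T.vx v ∩ T.vx w).card : ℚ) := by
  have e1 : ∀ x, (∑ v ∈ T.vx x, sg (c v)) * (∑ w ∈ T.vx x, sg (c' w)) =
      ∑ v, ∑ w, sg (c v) * sg (c' w) * (if x ∈ T.vx v ∩ T.vx w then 1 else 0) := by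
    intro x
    rw [sum_mul_sum, vx, sum_filter]
    apply sum_congr rfl
    intro v _
    by_cases hv : T.t x v = 0
    · rw [if_pos hv, sum_filter]
      apply sum_congr rfl
      intro w _
      by_cases hw : T.t x w = 0
      · have : x ∈ T.vx v ∩ T.vx w := by
          rw [mem_inter, mem_vx, mem_vx]; exact ⟨T.comm.1 hv, T.comm.1 hw⟩
        rw [if_pos hw, if_pos this, mul_one]
      · have : x ∉ T.vx v ∩ T.vx w := by
          rw [mem_inter, mem_vx, mem_vx]; exact fun h => hw (T.comm.1 h.2)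
        rw [if_neg hw, if_neg this, mul_zero]
    · rw [if_neg hv]
      symm
      apply sum_eq_zero
      intro w _
      have : x ∉ T.vx v ∩ T.vx w := by
        rw [mem_inter, mem_vx, mem_vx]; exact fun h => hv (T.comm.1 h.1)
      rw [if_neg this, mul_zero]
  rw [sum_congr rfl (fun x _ => e1 x), sum_comm]
  apply sum_congr rfl
  intro v _
  rw [sum_comm]
  apply sum_congr rfl
  intro w _
  rw [← mul_sum, sum_boole]
  have : (univ.filter (fun z => z ∈ T.vx v ∩ T.vx w)) = T.vx v ∩ T.vx w := by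
    ext z; simp
  rw [this]

theorem card_gg (v w : V) : ((T.vx v ∩ T.vx w).card : ℚ) = (2 ^ fr V : ℚ) * (T.gg v * T.gg w * T.gg (v + w)) := by
  have h := T.inter_gg v w
  unfold gg at h ⊢
  have hp : (2 : ℚ) ^ T.rho v ≠ 0 := by positivity
  have hq : (2 : ℚ) ^ T.rho w ≠ 0 := by positivity
  have hr : (2 : ℚ) ^ T.rho (v + w) ≠ 0 := by positivity
  field_simp at h ⊢
  linarith

theorem sum_sg_dual' (x : V) : ∑ τ : D V, sg (τ x) = if x = 0 then (Fintype.card (D V) : ℚ) else 0 := by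
  by_cases hx : x = 0
  · rw [if_pos hx, hx, sum_congr rfl (g := fun _ => (1 : ℚ))]
    · rw [sum_const, nsmul_eq_mul, mul_one, card_univ]
    · intro τ _
      rw [map_zero, sg_zero]
  · rw [if_neg hx, sum_sg_dual x hx]

theorem tri (c c' : D V) :
    ∑ τ : D V, T.mu τ * T.mu (τ + c) * T.mu (τ + c') =
      (Fintype.card (D V) : ℚ) * ∑ v, ∑ w, sg (c v) * sg (c' w) * (T.gg v * T.gg w * T.gg (v + w)) := by
  have e1 : ∀ τ : D V, T.mu τ * T.mu (τ + c) * T.mu (τ + c') =
      ∑ v, ∑ w, ∑ u, sg (c v) * sg (c' w) * (T.gg v * T.gg w * T.gg u) * sg (τ (u + (v + w))) := by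
    intro τ
    have e2 : T.mu τ * T.mu (τ + c) * T.mu (τ + c') = (T.mu (τ + c) * T.mu (τ + c')) * T.mu τ := by ring
    rw [e2]
    unfold mu
    rw [sum_mul_sum, sum_mul]
    apply sum_congr rfl
    intro v _
    rw [sum_mul]
    apply sum_congr rfl
    intro w _
    rw [mul_sum]
    apply sum_congr rfl
    intro u _
    rw [map_add, map_add, sg_add, sg_add, LinearMap.add_apply, LinearMap.add_apply, sg_add, sg_add]
    ring
  rw [sum_congr rfl (fun τ _ => e1 τ), sum_comm, mul_sum]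
  apply sum_congr rfl
  intro v _
  rw [sum_comm, mul_sum]
  apply sum_congr rfl
  intro w _
  rw [sum_comm]
  have e3 : ∀ u : V, (∑ τ : D V, sg (c v) * sg (c' w) * (T.gg v * T.gg w * T.gg u) * sg (τ (u + (v + w)))) =
      if u = v + w then (Fintype.card (D V) : ℚ) * (sg (c v) * sg (c' w) * (T.gg v * T.gg w * T.gg u)) else 0 := by
    intro u
    rw [← mul_sum, sum_sg_dual']
    by_cases hu : u = v + w
    · rw [if_pos hu, if_pos (by rw [hu, add_self'])]
      ring
    · rw [if_neg hu, if_neg (fun h => hu (eq_of_add h)), mul_zero]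
  rw [sum_congr rfl (fun u _ => e3 u), sum_ite_eq' univ (v + w), if_pos (mem_univ _)]

/-- the values of `t` (with `0`) are closed under addition -/
theorem value_add (c c' : D V) (h : ∃ x y, T.t x y = c) (h' : ∃ x y, T.t x y = c') :
    ∃ x y, T.t x y = c + c' := by
  have hm : ∀ d : D V, (∃ x y, T.t x y = d) → 0 < T.mu d := by
    rintro d ⟨x, y, rfl⟩
    apply T.mu_pos _ x
    intro v hv
    rw [T.symm', hv]; rfl
  have h0 : 0 < T.mu 0 := hm 0 ⟨0, 0, T.zero_left 0⟩
  have h1 : 0 < ∑ τ : D V, T.mu τ * T.mu (τ + c) * T.mu (τ + c') := by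
    have h2 : T.mu 0 * T.mu (0 + c) * T.mu (0 + c') ≤ ∑ τ : D V, T.mu τ * T.mu (τ + c) * T.mu (τ + c') :=
      single_le_sum (f := fun τ => T.mu τ * T.mu (τ + c) * T.mu (τ + c'))
        (fun τ _ => mul_nonneg (mul_nonneg (T.mu_nonneg _) (T.mu_nonneg _)) (T.mu_nonneg _)) (mem_univ 0)
    rw [zero_add, zero_add] at h2
    exact lt_of_lt_of_le (mul_pos (mul_pos h0 (hm c h)) (hm c' h')) h2
  rw [T.tri] at h1
  have hD : (0 : ℚ) < (Fintype.card (D V) : ℚ) := by
    have : 0 < Fintype.card (D V) := Fintype.card_pos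
    exact_mod_cast this
  have h3 := (mul_pos_iff_of_pos_left hD).1 h1
  have h4 : ∑ x, (∑ v ∈ T.vx x, sg (c v)) * (∑ w ∈ T.vx x, sg (c' w)) =
      (2 ^ fr V : ℚ) * ∑ v, ∑ w, sg (c v) * sg (c' w) * (T.gg v * T.gg w * T.gg (v + w)) := by
    rw [T.moment, mul_sum]
    apply sum_congr rfl
    intro v _
    rw [mul_sum]
    apply sum_congr rfl
    intro w _
    rw [T.card_gg]
    ring
  have h5 : 0 < ∑ x, (∑ v ∈ T.vx x, sg (c v)) * (∑ w ∈ T.vx x, sg (c' w)) := by
    rw [h4]
    exact mul_pos (by positivity) h3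
  by_contra hcon
  have h6 : ∑ x, (∑ v ∈ T.vx x, sg (c v)) * (∑ w ∈ T.vx x, sg (c' w)) = 0 := by
    apply sum_eq_zero
    intro x _
    rw [T.ind_qx, T.ind_qx]
    by_cases q1 : c ∈ T.qx x
    · by_cases q2 : c' ∈ T.qx x
      · exfalso
        obtain ⟨a, ha⟩ := mem_qx.1 q1
        obtain ⟨b, hb⟩ := mem_qx.1 q2
        exact hcon ⟨x, a + b, by rw [T.tadd, ha, hb]⟩
      · rw [if_neg q2, mul_zero]
    · rw [if_neg q1, zero_mul]
  rw [h6] at h5
  exact lt_irrefl _ h5

end Toy

theorem att_proof : Stmt_att := by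
  intro V _ _ _ T c _
  let W : Submodule (ZMod 2) (D V) :=
    { carrier := {d | ∃ x y, T.t x y = d}
      add_mem' := fun {a b} ha hb => T.value_add a b ha hb
      zero_mem' := ⟨0, 0, T.zero_left 0⟩
      smul_mem' := by
        rintro r d ⟨x, y, rfl⟩
        exact ⟨x, r • y, by rw [map_smul]⟩ }
  have hW : W.dualCoannihilator = ⊥ := by
    rw [eq_bot_iff]
    intro x hx
    rw [Submodule.mem_dualCoannihilator] at hx
    rw [Submodule.mem_bot]
    apply T.nondeg
    intro y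
    ext z
    have h1 : T.t y z x = 0 := hx (T.t y z) ⟨y, z, rfl⟩
    rw [T.symm x y, T.symm' y x z, h1]
    rfl
  have hW2 : W = ⊤ := by
    have h := Subspace.dualCoannihilator_dualAnnihilator_eq (W := W)
    rw [← h, hW]
    exact Submodule.dualAnnihilator_bot
  have : c ∈ W := by rw [hW2]; exact Submodule.mem_top
  exact this

end Pool.Agent.TOYW
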