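import Pool.Agent.TOYW.Stmts

/-!
Sizes of `V_x`, `Q_x`, `V_x ∩ V_y` in a toy world.
-/

set_option linter.unusedSectionVars false
set_option linter.unusedVariables false

namespace Pool.Agent.TOYW

open Pool.Agent.ESL Finset
open scoped Classical

variable {V : Type} [AddCommGroup V] [Module (ZMod 2) V] [Fintype V]

theorem card_pow : Fintype.card V = 2 ^ fr V := by
  have h := Module.card_eq_pow_finrank (K := ZMod 2) (V := V)
  rwa [ZMod.card] at h

theorem card_sub (W : Submodule (ZMod 2) V) : (univ.filter (fun y => y ∈ W)).card = 2 ^ fr W := by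
  have h := Module.card_eq_pow_finrank (K := ZMod 2) (V := W)
  rw [ZMod.card] at h
  rw [← h, Fintype.card_subtype]

namespace Toy

variable (T : Toy V)

theorem alt' (x y : V) : T.t x y y = 0 := by
  rw [T.symm x y, T.symm' y x y, T.alt]
  rfl

/-- rank of `t x` is `2 ρ` -/
theorem two_rho (x : V) : fr (LinearMap.range (T.t x)) = 2 * T.rho x := by
  have h := even_proof V (T.t x) (T.alt' x)
  obtain ⟨k, hk⟩ := h
  unfold rho
  omega

theorem fr_ker (x : V) : fr (LinearMap.ker (T.t x)) + 2 * T.rho x = fr V := by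
  have h : fr (LinearMap.range (T.t x)) + fr (LinearMap.ker (T.t x)) = fr V :=
    LinearMap.finrank_range_add_finrank_ker (T.t x)
  have h2 := T.two_rho x
  omega

theorem vx_eq (x : V) : T.vx x = univ.filter (fun y => y ∈ LinearMap.ker (T.t x)) := by
  ext y
  simp

theorem range_eq (x : V) : LinearMap.range (T.t x) = (LinearMap.ker (T.t x)).dualAnnihilator := by
  apply Submodule.eq_of_le_of_finrank_eq
  · rintro c ⟨y, rfl⟩
    rw [Submodule.mem_dualAnnihilator]
    intro v hv
    rw [LinearMap.mem_ker] at hv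
    rw [T.symm' x y v, hv]
    rfl
  · have h1 := T.two_rho x
    have h2 := T.fr_ker x
    have h3 : fr (LinearMap.ker (T.t x)) + fr (LinearMap.ker (T.t x)).dualAnnihilator = fr V :=
      Subspace.finrank_add_finrank_dualAnnihilator_eq (LinearMap.ker (T.t x))
    change fr (LinearMap.range (T.t x)) = fr (LinearMap.ker (T.t x)).dualAnnihilator
    omega

theorem fr_inf (x y : V) : fr (LinearMap.ker (T.t x) ⊓ LinearMap.ker (T.t y) : Submodule (ZMod 2) V) +
    (T.rho x + T.rho y + T.rho (x + y)) = fr V := by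
  -- the map `t x` from `V_{x+y}` onto `Q_x ∩ Q_y`
  have h1 : fr (LinearMap.range (T.t x) ⊓ LinearMap.range (T.t y) : Submodule (ZMod 2) (D V)) +
      fr (LinearMap.ker (T.t x) ⊓ LinearMap.ker (T.t y) : Submodule (ZMod 2) V) =
      fr (LinearMap.ker (T.t (x + y))) := by
    set f : LinearMap.ker (T.t (x + y)) →ₗ[ZMod 2] D V := (T.t x).comp (LinearMap.ker (T.t (x + y))).subtype with hf
    have hr : LinearMap.range f = LinearMap.range (T.t x) ⊓ LinearMap.range (T.t y) := by
      ext c
      constructor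
      · rintro ⟨⟨z, hz⟩, rfl⟩
        rw [LinearMap.mem_ker, map_add, LinearMap.add_apply] at hz
        refine ⟨⟨z, rfl⟩, ⟨z, ?_⟩⟩
        exact (eq_of_add hz).symm
      · rintro ⟨⟨a, ha⟩, ⟨b, hb⟩⟩
        obtain ⟨z, h1, h2⟩ := T.link x y a b (ha.trans hb.symm)
        refine ⟨⟨z, ?_⟩, ?_⟩
        · rw [LinearMap.mem_ker, map_add, LinearMap.add_apply, h1, h2, add_self']
        · exact h1.trans ha
    have hk : fr (LinearMap.ker f) =
        fr (LinearMap.ker (T.t x) ⊓ LinearMap.ker (T.t y) : Submodule (ZMod 2) V) := by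
      have e : (LinearMap.ker f).map (LinearMap.ker (T.t (x + y))).subtype =
          LinearMap.ker (T.t x) ⊓ LinearMap.ker (T.t y) := by
        ext v
        constructor
        · rintro ⟨⟨z, hz⟩, hz', rfl⟩
          have h3 : T.t x z = 0 := hz'
          rw [LinearMap.mem_ker, map_add, LinearMap.add_apply, h3, zero_add] at hz
          exact ⟨h3, hz⟩
        · rintro ⟨h3, h4⟩
          have h3' : T.t x v = 0 := h3
          have h4' : T.t y v = 0 := h4
          refine ⟨⟨v, ?_⟩, ?_, rfl⟩
          · rw [LinearMap.mem_ker, map_add, LinearMap.add_apply, h3', h4', add_zero]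
          · exact h3'
      rw [← e]
      exact (LinearEquiv.finrank_eq (Submodule.equivMapOfInjective _ (Submodule.injective_subtype _)
        (LinearMap.ker f)))
    have h : fr (LinearMap.range f) + fr (LinearMap.ker f) = fr (LinearMap.ker (T.t (x + y))) :=
      LinearMap.finrank_range_add_finrank_ker f
    rw [hr] at h
    omega
  have h2 : (LinearMap.range (T.t x) ⊓ LinearMap.range (T.t y) : Submodule (ZMod 2) (D V)) =
      (LinearMap.ker (T.t x) ⊔ LinearMap.ker (T.t y)).dualAnnihilator := by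
    rw [T.range_eq x, T.range_eq y, Submodule.dualAnnihilator_sup_eq]
  have h3 : fr (LinearMap.ker (T.t x) ⊔ LinearMap.ker (T.t y) : Submodule (ZMod 2) V) +
      fr (LinearMap.ker (T.t x) ⊔ LinearMap.ker (T.t y)).dualAnnihilator = fr V :=
    Subspace.finrank_add_finrank_dualAnnihilator_eq (LinearMap.ker (T.t x) ⊔ LinearMap.ker (T.t y))
  have h4 : fr (LinearMap.ker (T.t x) ⊔ LinearMap.ker (T.t y) : Submodule (ZMod 2) V) +
      fr (LinearMap.ker (T.t x) ⊓ LinearMap.ker (T.t y) : Submodule (ZMod 2) V) =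
      fr (LinearMap.ker (T.t x)) + fr (LinearMap.ker (T.t y)) :=
    Submodule.finrank_sup_add_finrank_inf_eq (LinearMap.ker (T.t x)) (LinearMap.ker (T.t y))
  have h1' : fr (LinearMap.ker (T.t x) ⊔ LinearMap.ker (T.t y)).dualAnnihilator +
      fr (LinearMap.ker (T.t x) ⊓ LinearMap.ker (T.t y) : Submodule (ZMod 2) V) =
      fr (LinearMap.ker (T.t (x + y))) := by
    rw [h2] at h1
    exact h1
  have h5 := T.fr_ker x
  have h6 := T.fr_ker y
  have h7 := T.fr_ker (x + y)
  omega

end Toy

theorem card_proof : Stmt_card := by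
  intro V _ _ _ T
  refine ⟨?_, ?_, ?_, ?_⟩
  · intro x
    rw [T.vx_eq, card_sub, card_pow, ← T.fr_ker x, pow_add, pow_mul]
    norm_num
  · intro x
    have e : T.qx x = univ.filter (fun c => c ∈ LinearMap.range (T.t x)) := by
      ext c
      simp
    rw [e, card_sub, T.two_rho, pow_mul]
    norm_num
  · intro x c
    have e : c ∈ T.qx x ↔ c ∈ LinearMap.range (T.t x) := by simp
    rw [e, T.range_eq, Submodule.mem_dualAnnihilator]
    simp
  · intro x y
    have e : T.vx x ∩ T.vx y =
        univ.filter (fun z => z ∈ (LinearMap.ker (T.t x) ⊓ LinearMap.ker (T.t y) : Submodule (ZMod 2) V)) := by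
      ext z
      simp
    rw [e, card_sub, card_pow, ← T.fr_inf x y, pow_add _ (fr _)]

end Pool.Agent.TOYW
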