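import Pool.Agent.TOYW.Count

/-!
Case I (all triangles have ranks `d, R, R`, `n = 2 R + d`, `d < R`) is impossible for `d ≥ 2`.
-/

set_option linter.unusedSectionVars false
set_option linter.unusedVariables false

namespace Pool.Agent.TOYW

open Pool.Agent.ESL Finset
open scoped Classical

variable {V : Type} [AddCommGroup V] [Module (ZMod 2) V] [Fintype V]

namespace Toy

variable {T : Toy V}

theorem card_nb_nb {c : D V} {x y : V} (hx : x ∈ T.S c) (hy : y ∈ T.S c) :
    (T.nb c x ∩ T.nb c y).card = (T.vx x ∩ T.vx y).card := by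
  obtain ⟨w, h3, h4⟩ := common hx hy
  apply card_nbij' (fun u => u + w) (fun u => u + w)
  · intro u hu
    simp only [mem_coe, mem_inter, mem_nb, mem_vx] at hu ⊢
    rw [T.tadd, T.tadd, hu.1, hu.2, h3, h4, add_self']
    exact ⟨rfl, rfl⟩
  · intro u hu
    simp only [mem_coe, mem_inter, mem_nb, mem_vx] at hu ⊢
    rw [T.tadd, T.tadd, hu.1, hu.2, h3, h4, zero_add]
    exact ⟨rfl, rfl⟩
  · intro u _; exact add_add_self' u w
  · intro u _; exact add_add_self' u w

/-- `ψ_x(b)` -/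
noncomputable def psi (T : Toy V) (c : D V) (x b : V) : ℕ :=
  ∑ z ∈ T.nb c x, 2 ^ (fr V + T.rho b - T.rho z - T.rho (z + b))

theorem mul_card (z z' : V) :
    (T.vx z).card * (T.vx z').card =
      (T.vx z ∩ T.vx z').card * 2 ^ (fr V + T.rho (z + z') - T.rho z - T.rho z') := by
  have h1 := T.vx_card z
  have h2 := T.vx_card z'
  have h3 := T.inter_card z z'
  have h4 := T.trip_le z z'
  have h5 : (T.vx z).card * (T.vx z').card * 4 ^ (T.rho z + T.rho z') =
      (T.vx z ∩ T.vx z').card * 2 ^ (fr V + T.rho (z + z') - T.rho z - T.rho z') *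
        4 ^ (T.rho z + T.rho z') := by
    have e1 : (T.vx z).card * (T.vx z').card * 4 ^ (T.rho z + T.rho z') = 2 ^ fr V * 2 ^ fr V := by
      rw [pow_add]
      calc (T.vx z).card * (T.vx z').card * (4 ^ T.rho z * 4 ^ T.rho z')
          = ((T.vx z).card * 4 ^ T.rho z) * ((T.vx z').card * 4 ^ T.rho z') := by ring
        _ = _ := by rw [h1, h2]
    have e2 : (4 : ℕ) ^ (T.rho z + T.rho z') = 2 ^ (T.rho z + T.rho z') * 2 ^ (T.rho z + T.rho z') := by
      rw [← mul_pow]; norm_num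
    have e3 : 2 ^ (fr V + T.rho (z + z') - T.rho z - T.rho z') * 2 ^ (T.rho z + T.rho z') =
        2 ^ T.rho (z + z') * 2 ^ fr V := by
      rw [← pow_add, ← pow_add]
      congr 1
      omega
    rw [e1, e2]
    calc 2 ^ fr V * 2 ^ fr V
        = ((T.vx z ∩ T.vx z').card * 2 ^ (T.rho z + T.rho z' + T.rho (z + z'))) * 2 ^ fr V := by rw [h3]
      _ = (T.vx z ∩ T.vx z').card * 2 ^ (T.rho z + T.rho z') * (2 ^ T.rho (z + z') * 2 ^ fr V) := by
          rw [pow_add _ (T.rho z + T.rho z')]; ring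
      _ = (T.vx z ∩ T.vx z').card * 2 ^ (T.rho z + T.rho z') *
            (2 ^ (fr V + T.rho (z + z') - T.rho z - T.rho z') * 2 ^ (T.rho z + T.rho z')) := by rw [e3]
      _ = _ := by ring
  exact Nat.eq_of_mul_eq_mul_right (by positivity) h5

/-- (A0) -/
theorem mass_sq (c : D V) : T.mass c * T.mass c = ∑ x ∈ T.S c, ∑ b ∈ T.vx x, T.psi c x b := by
  set F : V → V → ℕ := fun z z' => 2 ^ (fr V + T.rho (z + z') - T.rho z - T.rho z') with hF
  have h1 : ∀ z ∈ T.S c, ∀ z' ∈ T.S c, (T.vx z).card * (T.vx z').card =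
      ∑ x ∈ T.S c, (if T.t x z = c then (if T.t x z' = c then F z z' else 0) else 0) := by
    intro z hz z' hz'
    rw [mul_card, ← card_nb_nb hz hz', ← smul_eq_mul, ← sum_const]
    have e : T.nb c z ∩ T.nb c z' = (T.S c).filter (fun x => T.t x z = c ∧ T.t x z' = c) := by
      ext x
      rw [mem_inter, mem_nb, mem_nb, mem_filter, T.symm z x, T.symm z' x]
      constructor
      · rintro ⟨a, b⟩; exact ⟨mem_S_of a, a, b⟩
      · rintro ⟨_, a, b⟩; exact ⟨a, b⟩
    rw [e, sum_filter]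
    apply sum_congr rfl
    intro x _
    split_ifs <;> tauto
  have h2 : T.mass c * T.mass c = ∑ z ∈ T.S c, ∑ z' ∈ T.S c, (T.vx z).card * (T.vx z').card := by
    unfold mass
    rw [sum_mul_sum]
  rw [h2]
  have h3 : ∑ z ∈ T.S c, ∑ z' ∈ T.S c, (T.vx z).card * (T.vx z').card =
      ∑ z ∈ T.S c, ∑ z' ∈ T.S c, ∑ x ∈ T.S c,
        (if T.t x z = c then (if T.t x z' = c then F z z' else 0) else 0) := by
    apply sum_congr rfl
    intro z hz
    apply sum_congr rfl
    intro z' hz'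
    exact h1 z hz z' hz'
  rw [h3]
  have h4 : ∀ z ∈ T.S c, ∑ z' ∈ T.S c, ∑ x ∈ T.S c,
        (if T.t x z = c then (if T.t x z' = c then F z z' else 0) else 0) =
      ∑ x ∈ T.S c, ∑ z' ∈ T.S c, (if T.t x z = c then (if T.t x z' = c then F z z' else 0) else 0) := by
    intro z _
    rw [sum_comm]
  rw [sum_congr rfl h4, sum_comm]
  apply sum_congr rfl
  intro x hx
  have hfil : ∀ f : V → ℕ, ∑ z ∈ T.S c, (if T.t x z = c then f z else 0) = ∑ z ∈ T.nb c x, f z := by
    intro f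
    rw [← sum_filter]
    apply sum_congr _ (fun _ _ => rfl)
    ext z
    rw [mem_filter, mem_nb]
    constructor
    · exact fun h => h.2
    · exact fun h => ⟨mem_S_of' h, h⟩
  have h5 : ∀ z ∈ T.S c, ∑ z' ∈ T.S c, (if T.t x z = c then (if T.t x z' = c then F z z' else 0) else 0) =
      (if T.t x z = c then ∑ z' ∈ T.nb c x, F z z' else 0) := by
    intro z _
    split_ifs with h
    · exact hfil (fun z' => F z z')
    · simp
  rw [sum_congr rfl h5, hfil (fun z => ∑ z' ∈ T.nb c x, F z z')]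
  unfold psi
  rw [sum_comm (s := T.vx x)]
  apply sum_congr rfl
  intro z hz
  rw [mem_nb] at hz
  apply sum_nbij' (fun z' => z + z') (fun b => z + b)
  · intro z' hz'
    rw [mem_nb] at hz'
    rw [mem_vx]
    exact nb_sub hz hz'
  · intro b hb
    rw [mem_vx] at hb
    rw [mem_nb]
    exact nb_add hz hb
  · intro z' _; exact add_add_self z z'
  · intro b _; exact add_add_self z b
  · intro z' _
    simp only [hF]
    rw [add_add_self]

section

variable {c : D V} {R d : ℕ}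

theorem rank_or (hP : ∀ y z, T.t y z = c → T.Perm3 d R y z) {y : V} (hy : y ∈ T.S c) :
    T.rho y = d ∨ T.rho y = R := by
  obtain ⟨z, hz⟩ := mem_S.1 hy
  have := hP y z hz
  unfold Perm3 at this
  tauto

theorem rank_d (hP : ∀ y z, T.t y z = c → T.Perm3 d R y z) (hd : d < R) {y z : V} (hy : T.rho y = d)
    (hz : T.t y z = c) : T.rho z = R ∧ T.rho (z + y) = R := by
  have := hP y z hz
  unfold Perm3 at this
  omega

theorem rank_R (hP : ∀ y z, T.t y z = c → T.Perm3 d R y z) (hd : d < R) {y z : V} (hy : T.rho y = R)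
    (hz : T.t y z = c) : (T.rho z = d ∧ T.rho (z + y) = R) ∨ (T.rho z = R ∧ T.rho (z + y) = d) := by
  have := hP y z hz
  unfold Perm3 at this
  omega

/-- slots of rank `r` -/
noncomputable def Sr (T : Toy V) (c : D V) (r : ℕ) : Finset V := (T.S c).filter (fun y => T.rho y = r)

theorem mem_Sr {r : ℕ} {y : V} : y ∈ T.Sr c r ↔ y ∈ T.S c ∧ T.rho y = r := by simp [Sr]

/-- half of the neighbours of a slot of rank `R` have rank `d` -/
theorem half_nb (hP : ∀ y z, T.t y z = c → T.Perm3 d R y z) (hd : d < R) {v : V} (hv : v ∈ T.Sr c R) :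
    2 * ((T.nb c v).filter (fun z => T.rho z = d)).card = (T.vx v).card := by
  rw [mem_Sr] at hv
  have h1 : ((T.nb c v).filter (fun z => ¬ T.rho z = d)).card = ((T.nb c v).filter (fun z => T.rho z = d)).card := by
    apply card_nbij' (fun z => z + v) (fun z => z + v)
    · intro z hz
      simp only [mem_coe, mem_filter, mem_nb] at hz ⊢
      refine ⟨nb_self hz.1, ?_⟩
      have := rank_R hP hd hv.2 hz.1
      tauto
    · intro z hz
      simp only [mem_coe, mem_filter, mem_nb] at hz ⊢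
      refine ⟨nb_self hz.1, ?_⟩
      have := rank_R hP hd hv.2 hz.1
      omega
    · intro z _; exact add_add_self' z v
    · intro z _; exact add_add_self' z v
  have h2 := card_filter_add_card_filter_not (s := T.nb c v) (fun z => T.rho z = d)
  rw [h1, card_nb hv.1] at h2
  omega

/-- masses of the two kinds of slots -/
theorem mass_R (hP : ∀ y z, T.t y z = c → T.Perm3 d R y z) (hd : d < R) :
    ∑ v ∈ T.Sr c R, (T.vx v).card = 2 * ∑ y ∈ T.Sr c d, (T.vx y).card := by
  have h1 : ∑ v ∈ T.Sr c R, (T.vx v).card = 2 * ∑ v ∈ T.Sr c R, ∑ y ∈ T.Sr c d, (if T.t v y = c then 1 else 0) := by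
    rw [mul_sum]
    apply sum_congr rfl
    intro v hv
    rw [← half_nb hP hd hv, ← card_filter]
    congr 2
    ext z
    rw [mem_filter, mem_filter, mem_nb, mem_Sr]
    constructor
    · rintro ⟨a, b⟩; exact ⟨⟨mem_S_of' a, b⟩, a⟩
    · rintro ⟨⟨_, b⟩, a⟩; exact ⟨a, b⟩
  rw [h1, sum_comm]
  congr 1
  apply sum_congr rfl
  intro y hy
  rw [mem_Sr] at hy
  rw [← card_nb hy.1, ← card_filter]
  congr 1
  ext v
  rw [mem_filter, mem_Sr, mem_nb, T.symm]
  constructor
  · exact fun h => h.2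
  · exact fun h => ⟨⟨mem_S_of' h, (rank_d hP hd hy.2 h).1⟩, h⟩

theorem mass_eq (hP : ∀ y z, T.t y z = c → T.Perm3 d R y z) (hd : d < R) {β : Type} [AddCommMonoid β] (f : V → β) :
    ∑ y ∈ T.S c, f y = ∑ y ∈ T.Sr c d, f y + ∑ y ∈ T.Sr c R, f y := by
  rw [← sum_filter_add_sum_filter_not (T.S c) (fun y => T.rho y = d)]
  congr 1
  apply sum_congr _ (fun _ _ => rfl)
  ext y
  rw [mem_filter, mem_Sr]
  constructor
  · rintro ⟨a, b⟩
    refine ⟨a, ?_⟩
    have := rank_or hP a
    tauto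
  · rintro ⟨a, b⟩
    exact ⟨a, by omega⟩

theorem Xs_half (hg : T.Good c) {y z : V} (hz : T.t y z = c) (hne : T.rho (z + y) ≠ T.rho z) :
    2 * (T.Xs y).card ≤ (T.vx y).card := by
  have hd : Disjoint (T.Xs y) (T.Hs c y) := by
    rw [disjoint_left]
    intro b hb hb'
    have h1 := Xs_swap hg hb hz
    have h2 := (mem_Hs.1 hb').2 z hz
    have h3 := good_trip hg hz
    omega
  have h1 := card_Xs_le_Hs hg y
  have h2 : T.Xs y ∪ T.Hs c y ⊆ T.vx y := by
    intro a ha
    rw [mem_union] at ha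
    rw [mem_vx]
    rcases ha with ha | ha
    · exact (mem_Xs.1 ha).1
    · exact (mem_Hs.1 ha).1
  have h3 := card_le_card h2
  rw [card_union_of_disjoint hd] at h3
  omega

/-- (A1) -/
theorem psi_d (hg : T.Good c) (hP : ∀ y z, T.t y z = c → T.Perm3 d R y z) (hd : d < R) (hn : fr V = 2 * R + d)
    {x b : V} (hx : x ∈ T.Sr c d) (hb : b ∈ T.vx x) :
    2 * T.psi c x b ≤ 2 ^ fr V * (1 + if b ∈ T.Xs x then 1 else 0) := by
  rw [mem_Sr] at hx
  rw [mem_vx] at hb
  have h1 : T.psi c x b = (T.vx x).card * 2 ^ (d + T.rho b) := by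
    unfold psi
    rw [← card_nb hx.1, ← smul_eq_mul, ← sum_const]
    apply sum_congr rfl
    intro z hz
    rw [mem_nb] at hz
    have e1 := (rank_d hP hd hx.2 hz).1
    have e2 := (rank_d hP hd hx.2 (nb_add hz hb)).1
    congr 1
    omega
  have h2 := T.vx_card x
  rw [hx.2] at h2
  have h3 := (good_le hg hx.1 hb).1
  rw [hx.2] at h3
  rw [h1]
  by_cases hbX : b ∈ T.Xs x
  · rw [if_pos hbX]
    have h4 := (mem_Xs.1 hbX).2
    rw [hx.2] at h4
    rw [h4, ← two_mul d, pow_mul, show (2 : ℕ) ^ 2 = 4 by norm_num, h2]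
    omega
  · rw [if_neg hbX]
    have h4 : T.rho b ≠ d := by
      intro h
      exact hbX (mem_Xs.2 ⟨hb, by rw [h, hx.2]⟩)
    have h5 : 2 ^ (d + T.rho b + 1) ≤ 4 ^ d := by
      rw [show (4 : ℕ) = 2 ^ 2 by norm_num, ← pow_mul]
      exact Nat.pow_le_pow_right (by norm_num) (by omega)
    calc 2 * ((T.vx x).card * 2 ^ (d + T.rho b)) = (T.vx x).card * 2 ^ (d + T.rho b + 1) := by
          rw [pow_succ]; ring
      _ ≤ (T.vx x).card * 4 ^ d := Nat.mul_le_mul_left _ h5
      _ = 2 ^ fr V * (1 + 0) := by rw [h2]; ring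

/-- (A2), one half -/
theorem psi_R_aux (hg : T.Good c) (hP : ∀ y z, T.t y z = c → T.Perm3 d R y z) (hd : d < R) (hn : fr V = 2 * R + d)
    (hd2 : 2 ≤ d) {x b : V} (hx : x ∈ T.Sr c R) (hb : b ∈ T.Hs c x) :
    32 * (T.psi c x b + T.psi c x (b + x)) ≤ 2 ^ fr V * (36 + if b + x ∈ T.Xs x then 1 else 0) := by
  rw [mem_Sr] at hx
  have hbH := mem_Hs.1 hb
  have hx0 : x ≠ 0 := slot_ne hg.1 hx.1
  have hV : (T.vx x).card = 2 ^ d := by
    have h := T.vx_card x
    rw [hx.2, hn, pow_add, pow_mul] at h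
    have : (T.vx x).card * 4 ^ R = 2 ^ d * 4 ^ R := by rw [h]; ring
    exact Nat.eq_of_mul_eq_mul_right (by positivity) this
  -- rank of `b`
  obtain ⟨w, hw⟩ := mem_S.1 hx.1
  have hbd : T.rho b ≤ d := by
    rcases rank_R hP hd hx.2 hw with h | h
    · have h1 := (hbH.2 (w + x) (nb_self hw))
      have h2 := T.trip_le b (w + x)
      rw [add_comm b] at h2
      omega
    · have h1 := (hbH.2 w hw)
      have h2 := T.trip_le b w
      rw [add_comm b] at h2
      omega
  -- `ψ(b)`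
  have h1 : 2 * T.psi c x b = 2 ^ (2 * d + T.rho b) + 2 ^ (2 * R + T.rho b) := by
    have e1 : ∑ z ∈ T.nb c x, 2 ^ (fr V + T.rho b - T.rho (z + x) - T.rho (z + x + b)) = T.psi c x b := by
      unfold psi
      apply sum_shift (T.nb c x) x (f := fun z => 2 ^ (fr V + T.rho b - T.rho z - T.rho (z + b)))
      intro z hz
      rw [mem_nb] at hz ⊢
      exact nb_self hz
    have e2 : T.psi c x b + T.psi c x b = ∑ z ∈ T.nb c x, (2 ^ (d + T.rho b) + 2 ^ (2 * R - d + T.rho b)) := by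
      nth_rewrite 1 [← e1]
      unfold psi
      rw [← sum_add_distrib]
      apply sum_congr rfl
      intro z hz
      rw [mem_nb] at hz
      have e3 := hbH.2 z hz
      have e4 := hbH.2 (z + x) (nb_self hz)
      rcases rank_R hP hd hx.2 hz with h | h
      · have f1 : fr V + T.rho b - T.rho (z + x) - T.rho (z + x + b) = d + T.rho b := by omega
        have f2 : fr V + T.rho b - T.rho z - T.rho (z + b) = 2 * R - d + T.rho b := by omega
        rw [f1, f2]
      · have f1 : fr V + T.rho b - T.rho (z + x) - T.rho (z + x + b) = 2 * R - d + T.rho b := by omega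
        have f2 : fr V + T.rho b - T.rho z - T.rho (z + b) = d + T.rho b := by omega
        rw [f1, f2, add_comm]
    rw [two_mul, e2, sum_const, smul_eq_mul, card_nb hx.1, hV, mul_add, ← pow_add, ← pow_add]
    congr 2
    · ring
    · omega
  -- `ψ(b + x)`
  have h2 : T.psi c x (b + x) = 2 ^ (R + d + T.rho (b + x)) := by
    have e2 : T.psi c x (b + x) = ∑ z ∈ T.nb c x, 2 ^ (R + T.rho (b + x)) := by
      unfold psi
      apply sum_congr rfl
      intro z hz
      rw [mem_nb] at hz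
      have e4 := hbH.2 (z + x) (nb_self hz)
      have e5 : z + (b + x) = z + x + b := by abel
      rw [e5]
      rcases rank_R hP hd hx.2 hz with h | h
      · congr 1; omega
      · congr 1; omega
    rw [e2, sum_const, smul_eq_mul, card_nb hx.1, hV, ← pow_add]
    congr 1
    ring
  have h3 : (T.rho (b + x)) ≤ R := by
    rw [← hx.2]
    exact (good_le hg hx.1 (by rw [T.tadd, hbH.1, T.alt, add_zero])).1
  have h4 : 4 * 2 ^ (2 * d + T.rho b) ≤ 2 ^ (2 * R + T.rho b) := by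
    calc 4 * 2 ^ (2 * d + T.rho b) = 2 ^ (2 * d + T.rho b + 2) := by rw [pow_add _ _ 2]; ring
      _ ≤ _ := Nat.pow_le_pow_right (by norm_num) (by omega)
  by_cases hX : b + x ∈ T.Xs x
  · rw [if_pos hX]
    have h5 := (mem_Xs.1 hX).2
    rw [hx.2] at h5
    have h6 : T.rho b + 2 ≤ d := by
      by_cases hb0 : b = 0
      · rw [hb0, T.rho_zero]; omega
      · have hbx : b ≠ x := by
          rintro rfl
          rw [add_self', T.rho_zero] at h5
          omega
        have h7 := T.trip_comm hx0 hb0 (Ne.symm hbx) hbH.1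
        rw [add_comm x b] at h7
        omega
    have h7 : 4 * 2 ^ (2 * R + T.rho b) ≤ 2 ^ fr V := by
      calc 4 * 2 ^ (2 * R + T.rho b) = 2 ^ (2 * R + T.rho b + 2) := by rw [pow_add _ _ 2]; ring
        _ ≤ _ := Nat.pow_le_pow_right (by norm_num) (by omega)
    have h8 : T.psi c x (b + x) = 2 ^ fr V := by
      rw [h2, h5]
      congr 1
      omega
    rw [h8]
    omega
  · rw [if_neg hX]
    have h5 : T.rho (b + x) ≠ R := by
      intro h
      exact hX (mem_Xs.2 ⟨by rw [T.tadd, hbH.1, T.alt, add_zero], by rw [h, hx.2]⟩)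
    have h6 : 2 * T.psi c x (b + x) ≤ 2 ^ fr V := by
      rw [h2]
      calc 2 * 2 ^ (R + d + T.rho (b + x)) = 2 ^ (R + d + T.rho (b + x) + 1) := by rw [pow_succ]; ring
        _ ≤ _ := Nat.pow_le_pow_right (by norm_num) (by omega)
    have h7 : 2 ^ (2 * R + T.rho b) ≤ 2 ^ fr V := Nat.pow_le_pow_right (by norm_num) (by omega)
    omega

/-- (A2) -/
theorem psi_R (hatt : ∀ c : D V, c ≠ 0 → ∃ x y, T.t x y = c) (hg : T.Good c)
    (hP : ∀ y z, T.t y z = c → T.Perm3 d R y z) (hd : d < R) (hn : fr V = 2 * R + d)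
    (hd2 : 2 ≤ d) {x b : V} (hx : x ∈ T.Sr c R) (hb : b ∈ T.vx x) :
    32 * (T.psi c x b + T.psi c x (b + x)) ≤
      2 ^ fr V * (36 + ((if b ∈ T.Xs x then 1 else 0) + if b + x ∈ T.Xs x then 1 else 0)) := by
  rw [mem_vx] at hb
  rcases Hs_or hatt hg (mem_Sr.1 hx).1 hb with h | h
  · have h1 := psi_R_aux hg hP hd hn hd2 hx h
    refine le_trans h1 (Nat.mul_le_mul_left _ ?_)
    omega
  · have h1 := psi_R_aux hg hP hd hn hd2 hx h
    rw [add_add_self'] at h1
    rw [add_comm (T.psi c x b)]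
    refine le_trans h1 (Nat.mul_le_mul_left _ ?_)
    omega

/-- (A) -/
theorem upper (hatt : ∀ c : D V, c ≠ 0 → ∃ x y, T.t x y = c) (hg : T.Good c)
    (hP : ∀ y z, T.t y z = c → T.Perm3 d R y z) (hd : d < R) (hn : fr V = 2 * R + d) (hd2 : 2 ≤ d) :
    32 * (T.mass c * T.mass c) ≤ 2 ^ fr V * (16 * (∑ x ∈ T.Sr c d, (T.vx x).card + ∑ x ∈ T.Sr c d, (T.Xs x).card) +
      (18 * ∑ x ∈ T.Sr c R, (T.vx x).card + ∑ x ∈ T.Sr c R, (T.Xs x).card)) := by
  rw [mass_sq, mass_eq hP hd]
  have hXf : ∀ x, ∑ b ∈ T.vx x, (if b ∈ T.Xs x then 1 else 0) = (T.Xs x).card := by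
    intro x
    rw [← card_filter]
    congr 1
    ext b
    rw [mem_filter, mem_Xs, mem_vx]
    tauto
  have h1 : 2 * ∑ x ∈ T.Sr c d, ∑ b ∈ T.vx x, T.psi c x b ≤
      2 ^ fr V * (∑ x ∈ T.Sr c d, (T.vx x).card + ∑ x ∈ T.Sr c d, (T.Xs x).card) := by
    rw [mul_sum, ← sum_add_distrib, mul_sum]
    apply sum_le_sum
    intro x hx
    rw [mul_sum]
    have e := sum_le_sum (fun b hb => psi_d hg hP hd hn hx hb)
    refine le_trans e (le_of_eq ?_)
    rw [← mul_sum, sum_add_distrib, hXf]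
    simp
  have h2 : 32 * ∑ x ∈ T.Sr c R, ∑ b ∈ T.vx x, T.psi c x b ≤
      2 ^ fr V * (18 * ∑ x ∈ T.Sr c R, (T.vx x).card + ∑ x ∈ T.Sr c R, (T.Xs x).card) := by
    rw [mul_sum, mul_sum, ← sum_add_distrib, mul_sum]
    apply sum_le_sum
    intro x hx
    have e := sum_le_sum (fun b hb => psi_R hatt hg hP hd hn hd2 hx hb)
    have hsh : ∀ f : V → ℕ, ∑ b ∈ T.vx x, f (b + x) = ∑ b ∈ T.vx x, f b := by
      intro f
      apply sum_shift
      intro b hb
      rw [mem_vx] at hb ⊢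
      rw [T.tadd, hb, T.alt, add_zero]
    rw [← mul_sum, ← mul_sum, sum_add_distrib, sum_add_distrib, sum_add_distrib, hsh (fun b => T.psi c x b),
      hsh (fun b => if b ∈ T.Xs x then 1 else 0), hXf, sum_const, smul_eq_mul] at e
    have e2 : 2 * (32 * ∑ b ∈ T.vx x, T.psi c x b) ≤
        2 * (2 ^ fr V * (18 * (T.vx x).card + (T.Xs x).card)) := by
      calc 2 * (32 * ∑ b ∈ T.vx x, T.psi c x b)
          = 32 * (∑ b ∈ T.vx x, T.psi c x b + ∑ b ∈ T.vx x, T.psi c x b) := by ring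
        _ ≤ _ := e
        _ = _ := by ring
    omega
  calc 32 * (∑ x ∈ T.Sr c d, ∑ b ∈ T.vx x, T.psi c x b + ∑ x ∈ T.Sr c R, ∑ b ∈ T.vx x, T.psi c x b)
      = 16 * (2 * ∑ x ∈ T.Sr c d, ∑ b ∈ T.vx x, T.psi c x b) +
          32 * ∑ x ∈ T.Sr c R, ∑ b ∈ T.vx x, T.psi c x b := by ring
    _ ≤ 16 * (2 ^ fr V * (∑ x ∈ T.Sr c d, (T.vx x).card + ∑ x ∈ T.Sr c d, (T.Xs x).card)) +
          2 ^ fr V * (18 * ∑ x ∈ T.Sr c R, (T.vx x).card + ∑ x ∈ T.Sr c R, (T.Xs x).card) :=
        Nat.add_le_add (Nat.mul_le_mul_left _ h1) h2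
    _ = _ := by ring

/-- incidences `x ∈ S_R ∩ V_b` with `x + b` of rank `R` -/
noncomputable def inc (T : Toy V) (c : D V) (R : ℕ) (b : V) : ℕ :=
  ((T.vx b ∩ T.S c).filter (fun x => T.rho x = R ∧ T.rho (b + x) = R)).card

theorem sum_inc : ∑ b ∈ G c, T.inc c R b = ∑ x ∈ T.Sr c R, (T.Xs x).card := by
  have h1 : ∀ b, T.inc c R b = ∑ x ∈ T.vx b ∩ T.S c, (if T.rho x = R ∧ T.rho (b + x) = R then 1 else 0) := by
    intro b
    unfold inc
    rw [card_filter]
  simp_rw [h1]
  rw [sum_comm_G]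
  unfold Sr
  rw [sum_filter]
  apply sum_congr rfl
  intro x _
  split_ifs with h
  · rw [← card_filter]
    apply card_nbij' (fun b => b + x) (fun b => b + x)
    · intro b hb
      simp only [mem_coe, mem_filter, mem_vx, mem_Xs] at hb ⊢
      exact ⟨by rw [T.tadd, hb.1, T.alt, add_zero], by rw [hb.2.2, h]⟩
    · intro b hb
      simp only [mem_coe, mem_filter, mem_vx, mem_Xs] at hb ⊢
      refine ⟨by rw [T.tadd, hb.1, T.alt, add_zero], h, ?_⟩
      rw [add_add_self', hb.2, h]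
    · intro b _; exact add_add_self' b x
    · intro b _; exact add_add_self' b x
  · apply sum_eq_zero
    intro b _
    rw [if_neg]
    tauto

theorem inc_U (hg : T.Good c) (hd : d < R) (hn : fr V = 2 * R + d) {b : V} (hb : b ∈ T.U c) : T.inc c R b = 0 := by
  unfold inc
  rw [card_eq_zero, filter_eq_empty_iff]
  rintro x hx ⟨h1, h2⟩
  rw [mem_inter, mem_vx] at hx
  obtain ⟨y, hy, hyb, he⟩ := mem_U.1 hb
  have h3 : x = y := good_unique hg hy hyb he hx.2 hx.1
  subst h3
  have hx0 : x ≠ 0 := slot_ne hg.1 hy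
  have hb0 : b ≠ 0 := by
    rintro rfl
    exact zero_notMem_U hg.1 hb
  have hbx : x ≠ b := by
    rintro rfl
    rw [add_self', T.rho_zero] at h2
    omega
  have h4 := T.trip_comm hx0 hb0 hbx hyb
  rw [add_comm x b] at h4
  omega

theorem claim (hatt : ∀ c : D V, c ≠ 0 → ∃ x y, T.t x y = c) (hg : T.Good c)
    (hP : ∀ y z, T.t y z = c → T.Perm3 d R y z) (hd : d < R) (hn : fr V = 2 * R + d) (hd2 : 2 ≤ d) {b : V}
    (hb : b ∈ G c) (hbU : b ∉ T.U c) : 15 + 4 * T.inc c R b ≤ 5 * T.sb c b := by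
  have h3 := sb_three hatt hg hb hbU
  by_cases hi : T.inc c R b = 0
  · omega
  obtain ⟨z, hz⟩ := card_pos.1 (Nat.pos_of_ne_zero hi)
  rw [mem_filter, mem_inter, mem_vx] at hz
  obtain ⟨⟨hbz, hzS⟩, hzR, hbzR⟩ := hz
  have hz0 : z ≠ 0 := slot_ne hg.1 hzS
  have hbd : T.rho b + 2 ≤ d := by
    by_cases hb0 : b = 0
    · rw [hb0, T.rho_zero]; omega
    · have hbx : z ≠ b := by
        rintro rfl
        rw [add_self', T.rho_zero] at hbzR
        omega
      have h7 := T.trip_comm hz0 hb0 hbx (T.comm.1 hbz)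
      rw [add_comm z b] at h7
      omega
  have hzX : b + z ∈ T.Xs z := by
    rw [mem_Xs, T.tadd, T.comm.1 hbz, T.alt, add_zero]
    exact ⟨rfl, by rw [hbzR, hzR]⟩
  have hbH : ∀ w, T.t z w = c → T.rho (w + b) = T.rho w := by
    have h := Xs_add hg hzX
    rw [add_add_self'] at h
    exact (mem_Hs.1 h).2
  -- right hand side of (4)
  have h4 := count4 (T := T) hzS hbz
  have hrw : ∀ w, T.t z w = c → (T.rho w = R → 4 ≤ (T.vx w ∩ T.vx b).card) ∧
      (T.rho w = d → 16 ≤ (T.vx w ∩ T.vx b).card) := by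
    intro w hw
    have e1 := T.inter_card w b
    have e2 := hbH w hw
    constructor
    · intro h
      rw [e2, h, hn] at e1
      by_contra hlt
      have : (T.vx w ∩ T.vx b).card * 2 ^ (R + T.rho b + R) < 4 * 2 ^ (R + T.rho b + R) :=
        Nat.mul_lt_mul_of_pos_right (by omega) (by positivity)
      rw [e1, show (4 : ℕ) = 2 ^ 2 by norm_num, ← pow_add] at this
      have h5 := (Nat.pow_lt_pow_iff_right (by norm_num : 1 < 2)).1 this
      omega
    · intro h
      rw [e2, h, hn] at e1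
      by_contra hlt
      have : (T.vx w ∩ T.vx b).card * 2 ^ (d + T.rho b + d) < 16 * 2 ^ (d + T.rho b + d) :=
        Nat.mul_lt_mul_of_pos_right (by omega) (by positivity)
      rw [e1, show (16 : ℕ) = 2 ^ 4 by norm_num, ← pow_add] at this
      have h5 := (Nat.pow_lt_pow_iff_right (by norm_num : 1 < 2)).1 this
      omega
  have h5 : 10 * (T.vx z).card ≤ ∑ w ∈ T.nb c z, (T.vx w ∩ T.vx b).card := by
    have e1 : ∑ w ∈ T.nb c z, (T.vx (w + z) ∩ T.vx b).card = ∑ w ∈ T.nb c z, (T.vx w ∩ T.vx b).card := by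
      apply sum_shift (T.nb c z) z (f := fun w => (T.vx w ∩ T.vx b).card)
      intro w hw
      rw [mem_nb] at hw ⊢
      exact nb_self hw
    have e2 : ∑ w ∈ T.nb c z, 20 ≤ ∑ w ∈ T.nb c z, ((T.vx w ∩ T.vx b).card + (T.vx (w + z) ∩ T.vx b).card) := by
      apply sum_le_sum
      intro w hw
      rw [mem_nb] at hw
      have f1 := hrw w hw
      have f2 := hrw (w + z) (nb_self hw)
      rcases rank_R hP hd hzR hw with h | h
      · have := f1.2 h.1
        have := f2.1 h.2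
        omega
      · have := f1.1 h.1
        have := f2.2 h.2
        omega
    rw [sum_add_distrib, e1, sum_const, smul_eq_mul, card_nb hzS] at e2
    omega
  rw [← h4] at h5
  -- left hand side
  have hzm : z ∈ T.vx b ∩ T.S c := by simp [hbz, hzS]
  rw [← add_sum_erase _ _ hzm, inter_self] at h5
  have h6 : ∀ x' ∈ (T.vx b ∩ T.S c).erase z, 2 * (T.vx z ∩ T.vx x').card ≤
      (if T.rho x' = R then 1 else 2) * (T.vx z).card := by
    intro x' hx'
    rw [mem_erase] at hx'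
    split_ifs with h
    · have h8 := T.rho_pos (x := z + x') (fun e => hx'.1 (eq_of_add e).symm)
      have h9 := T.inter_card z x'
      have h10 := T.vx_card z
      have h11 : 2 * (T.vx z ∩ T.vx x').card * 4 ^ T.rho z ≤ 1 * (T.vx z).card * 4 ^ T.rho z := by
        rw [one_mul, h10, ← h9]
        have e1 : 4 ^ T.rho z = 2 ^ (2 * T.rho z) := by rw [pow_mul]; norm_num
        rw [e1]
        calc 2 * (T.vx z ∩ T.vx x').card * 2 ^ (2 * T.rho z)
            = (T.vx z ∩ T.vx x').card * 2 ^ (2 * T.rho z + 1) := by rw [pow_succ]; ring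
          _ ≤ _ := Nat.mul_le_mul_left _ (Nat.pow_le_pow_right (by norm_num) (by omega))
      exact Nat.le_of_mul_le_mul_right h11 (by positivity)
    · exact Nat.mul_le_mul_left _ (card_le_card inter_subset_left)
  have h7 := sum_le_sum h6
  rw [← mul_sum, ← sum_mul] at h7
  have h9 : 0 < (T.vx z).card := by
    have := vx_two (T := T) hz0
    omega
  have h10 : 18 * (T.vx z).card ≤ (∑ x' ∈ (T.vx b ∩ T.S c).erase z, (if T.rho x' = R then 1 else 2)) *
      (T.vx z).card := by omega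
  have h11 := Nat.le_of_mul_le_mul_right h10 h9
  -- `m_R + 2 m_d ≥ 19`
  have h12 : ∑ x' ∈ T.vx b ∩ T.S c, (if T.rho x' = R then 1 else 2) =
      1 + ∑ x' ∈ (T.vx b ∩ T.S c).erase z, (if T.rho x' = R then 1 else 2) := by
    rw [← add_sum_erase _ _ hzm, if_pos hzR]
  have h13 : ∑ x' ∈ T.vx b ∩ T.S c, (if T.rho x' = R then 1 else 2) =
      ((T.vx b ∩ T.S c).filter (fun x => T.rho x = R)).card +
        2 * ((T.vx b ∩ T.S c).filter (fun x => ¬ T.rho x = R)).card := by
    rw [← sum_filter_add_sum_filter_not (T.vx b ∩ T.S c) (fun x => T.rho x = R)]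
    congr 1
    · rw [card_eq_sum_ones]
      apply sum_congr rfl
      intro x hx
      rw [mem_filter] at hx
      rw [if_pos hx.2]
    · rw [card_eq_sum_ones, mul_sum]
      apply sum_congr rfl
      intro x hx
      rw [mem_filter] at hx
      rw [if_neg hx.2, mul_one]
  have h14 := card_filter_add_card_filter_not (s := T.vx b ∩ T.S c) (fun x => T.rho x = R)
  have h15 : T.inc c R b ≤ ((T.vx b ∩ T.S c).filter (fun x => T.rho x = R)).card := by
    unfold inc
    apply card_le_card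
    intro x hx
    rw [mem_filter] at hx ⊢
    exact ⟨hx.1, hx.2.1⟩
  have h16 : T.sb c b = (T.vx b ∩ T.S c).card := rfl
  omega

/-- (B) -/
theorem lower (hatt : ∀ c : D V, c ≠ 0 → ∃ x y, T.t x y = c) (hg : T.Good c)
    (hP : ∀ y z, T.t y z = c → T.Perm3 d R y z) (hd : d < R) (hn : fr V = 2 * R + d) (hd2 : 2 ≤ d) :
    15 * (G c).card + 4 * ∑ x ∈ T.Sr c R, (T.Xs x).card ≤ 5 * T.mass c +
      10 * (∑ x ∈ T.Sr c d, (T.Xs x).card + ∑ x ∈ T.Sr c R, (T.Xs x).card) := by
  have h1 : ∀ b ∈ G c, 15 + 4 * T.inc c R b ≤ 5 * T.sb c b + 10 * (if b ∈ T.U c then 1 else 0) := by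
    intro b hb
    split_ifs with h
    · have := inc_U hg hd hn h
      have := sb_pos hatt hg.1 hb
      omega
    · have := claim hatt hg hP hd hn hd2 hb h
      omega
  have h2 := sum_le_sum h1
  rw [sum_add_distrib, sum_add_distrib, ← mul_sum, ← mul_sum, ← mul_sum, sum_inc, sum_sb, sum_const,
    smul_eq_mul, ← card_filter] at h2
  have h3 : ((G c).filter (fun b => b ∈ T.U c)).card ≤
      ∑ x ∈ T.Sr c d, (T.Xs x).card + ∑ x ∈ T.Sr c R, (T.Xs x).card := by
    rw [← mass_eq hP hd]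
    calc ((G c).filter (fun b => b ∈ T.U c)).card ≤ (T.U c).card := by
          apply card_le_card
          intro b hb
          exact (mem_filter.1 hb).2
      _ ≤ _ := card_biUnion_le
  omega

/-- Case I is impossible for `d ≥ 2` -/
theorem caseI (hatt : ∀ c : D V, c ≠ 0 → ∃ x y, T.t x y = c) (hg : T.Good c)
    (hP : ∀ y z, T.t y z = c → T.Perm3 d R y z) (hd : d < R) (hn : fr V = 2 * R + d) (hd2 : 2 ≤ d) : False := by
  have hA := upper hatt hg hP hd hn hd2
  have hB := lower hatt hg hP hd hn hd2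
  have hm : T.mass c = ∑ x ∈ T.Sr c d, (T.vx x).card + ∑ x ∈ T.Sr c R, (T.vx x).card := mass_eq hP hd _
  have hR := mass_R (T := T) hP hd
  have hXd : ∑ x ∈ T.Sr c d, (T.Xs x).card ≤ ∑ x ∈ T.Sr c d, (T.vx x).card := by
    apply sum_le_sum
    intro x _
    exact card_le_card (filter_subset _ _)
  have hXR : 2 * ∑ x ∈ T.Sr c R, (T.Xs x).card ≤ ∑ x ∈ T.Sr c R, (T.vx x).card := by
    rw [mul_sum]
    apply sum_le_sum
    intro x hx
    rw [mem_Sr] at hx
    obtain ⟨z, hz⟩ := mem_S.1 hx.1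
    apply Xs_half hg hz
    have := rank_R hP hd hx.2 hz
    omega
  have hG := card_G hg.1
  have hGpos : 0 < (G c).card := card_pos.2 ⟨0, by rw [mem_G]; exact map_zero c⟩
  rw [hR] at hm hXR hA
  set k := ∑ x ∈ T.Sr c d, (T.vx x).card with hk
  set XD := ∑ x ∈ T.Sr c d, (T.Xs x).card with hXD
  set XR := ∑ x ∈ T.Sr c R, (T.Xs x).card with hXRd
  rw [← hG, hm] at hA
  have h1 : 16 * (k + XD) + (18 * (2 * k) + XR) ≤ 69 * k := by omega
  have h2 : 32 * ((k + 2 * k) * (k + 2 * k)) ≤ 2 * (G c).card * (69 * k) :=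
    le_trans hA (Nat.mul_le_mul_left _ h1)
  rw [hm] at hB
  have h3 : 15 * (G c).card ≤ 31 * k := by omega
  have hk0 : 0 < k := by omega
  have h4 : (288 * k) * k ≤ (138 * (G c).card) * k := by
    calc (288 * k) * k = 32 * ((k + 2 * k) * (k + 2 * k)) := by ring
      _ ≤ _ := h2
      _ = _ := by ring
  have h5 := Nat.le_of_mul_le_mul_right h4 hk0
  omega

end

end Toy

end Pool.Agent.TOYW
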