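import Pool.Agent.TOYW.Types

/-!
Counting for a good symbol: the mean of `s(b) = |V_b ∩ S|` on `ker c` is at most `3/2`; `s(b) ≥ 3` off `U`;
case II is impossible unless `|S| ≤ 3`.
-/

set_option linter.unusedSectionVars false
set_option linter.unusedVariables false

namespace Pool.Agent.TOYW

open Pool.Agent.ESL Finset
open scoped Classical

variable {V : Type} [AddCommGroup V] [Module (ZMod 2) V] [Fintype V]

/-- the hyperplane `ker c` -/
noncomputable def G (c : D V) : Finset V := univ.filter (fun b => c b = 0)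

theorem mem_G {c : D V} {b : V} : b ∈ G c ↔ c b = 0 := by simp [G]

theorem card_G {c : D V} (hc : c ≠ 0) : 2 * (G c).card = 2 ^ fr V := by
  obtain ⟨a, ha⟩ : ∃ a, c a ≠ 0 := by
    by_contra h
    push Not at h
    exact hc (LinearMap.ext h)
  have ha1 : c a = 1 := zm_ne ha
  have h1 : (univ.filter (fun b => ¬ c b = 0)).card = (G c).card := by
    apply card_nbij' (fun b => b + a) (fun b => b + a)
    · intro b hb
      simp only [mem_coe, mem_filter, mem_univ, true_and, mem_G] at hb ⊢
      rw [map_add, zm_ne hb, ha1]; decide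
    · intro b hb
      simp only [mem_coe, mem_filter, mem_univ, true_and, mem_G] at hb ⊢
      rw [map_add, hb, ha1]; decide
    · intro b _; exact add_add_self' b a
    · intro b _; exact add_add_self' b a
  have h2 := card_filter_add_card_filter_not (s := (univ : Finset V)) (fun b => c b = 0)
  rw [h1, card_univ, card_pow] at h2
  have h3 : (univ.filter (fun b => c b = 0)).card = (G c).card := rfl
  omega

namespace Toy

variable (T : Toy V)

/-- number of slots in `V_b` -/
noncomputable def sb (c : D V) (b : V) : ℕ := (T.vx b ∩ T.S c).card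

/-- total mass -/
noncomputable def mass (c : D V) : ℕ := ∑ x ∈ T.S c, (T.vx x).card

variable {T}

theorem sum_comm_G {β : Type} [AddCommMonoid β] (c : D V) (f : V → V → β) :
    ∑ b ∈ G c, ∑ x ∈ T.vx b ∩ T.S c, f b x = ∑ x ∈ T.S c, ∑ b ∈ T.vx x, f b x := by
  apply sum_comm'
  intro b x
  rw [mem_inter, mem_vx, mem_vx, mem_G]
  constructor
  · rintro ⟨h1, h2, h3⟩; exact ⟨T.comm.1 h2, h3⟩
  · rintro ⟨h1, h2⟩; exact ⟨slot_ker h2 h1, T.comm.1 h1, h2⟩

theorem sum_sb (c : D V) : ∑ b ∈ G c, T.sb c b = T.mass c := by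
  have h := sum_comm_G (T := T) c (fun _ _ => 1)
  simp only [sum_const, smul_eq_mul, mul_one] at h
  exact h

theorem sb_pos (hatt : ∀ c : D V, c ≠ 0 → ∃ x y, T.t x y = c) {c : D V} (hc : c ≠ 0) {b : V} (hb : b ∈ G c) :
    1 ≤ T.sb c b := by
  rw [mem_G] at hb
  obtain ⟨s, h1, h2⟩ := T.cov' hatt hc hb
  exact card_pos.2 ⟨s, by simp [h1, h2]⟩

theorem nb_card_ite {c : D V} (w : V) :
    ∑ x ∈ T.S c, (if T.t x w = c then 1 else 0) = (T.nb c w).card := by
  rw [← card_filter]
  congr 1
  ext x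
  rw [mem_filter, mem_nb, T.symm]
  constructor
  · exact fun h => h.2
  · exact fun h => ⟨mem_S_of' h, h⟩

theorem corr {c : D V} (hc : c ≠ 0) (y : V) :
    ∑ b : V, T.sb c b * T.sb c (b + y) = ∑ w : V, (T.nb c w).card * (T.nb c (w + y)).card := by
  have h1 : ∀ b, T.sb c b = ∑ x ∈ T.S c, (if T.t x b = 0 then 1 else 0) := by
    intro b
    rw [← card_filter, sb]
    congr 1
    ext x
    rw [mem_inter, mem_filter, mem_vx, T.symm, and_comm]
  have h2 : ∀ b, T.sb c b * T.sb c (b + y) =
      ∑ x ∈ T.S c, ∑ x' ∈ T.S c, (if T.t x b = 0 then 1 else 0) * (if T.t x' (b + y) = 0 then 1 else 0) := by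
    intro b
    rw [h1, h1, sum_mul_sum]
  have h3 : ∀ w, (T.nb c w).card * (T.nb c (w + y)).card =
      ∑ x ∈ T.S c, ∑ x' ∈ T.S c, (if T.t x w = c then 1 else 0) * (if T.t x' (w + y) = c then 1 else 0) := by
    intro w
    rw [← nb_card_ite, ← nb_card_ite, sum_mul_sum]
  simp_rw [h2, h3]
  rw [sum_comm, sum_comm (s := univ) (t := T.S c)]
  apply sum_congr rfl
  intro x hx
  rw [sum_comm, sum_comm (s := univ) (t := T.S c)]
  apply sum_congr rfl
  intro x' hx'
  obtain ⟨w0, h4, h5⟩ := common hx hx'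
  symm
  rw [← Equiv.sum_comp (Equiv.addRight w0)]
  apply sum_congr rfl
  intro b _
  have e1 : (T.t x (b + w0) = c) ↔ T.t x b = 0 := by
    rw [T.tadd, h4]
    constructor
    · intro h; simpa using h
    · intro h; rw [h, zero_add]
  have e2 : (T.t x' (b + w0 + y) = c) ↔ T.t x' (b + y) = 0 := by
    rw [add_right_comm, T.tadd x' (b + y) w0, h5]
    constructor
    · intro h; simpa using h
    · intro h; rw [h, zero_add]
  simp only [Equiv.coe_addRight, e1, e2]

/-- (E): `E ≤ 3/2` -/
theorem mass_le (hatt : ∀ c : D V, c ≠ 0 → ∃ x y, T.t x y = c) {c : D V} (hg : T.Good c) :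
    2 * T.mass c ≤ 3 * (G c).card := by
  have hc := hg.1
  obtain ⟨y, _, hy⟩ := hatt c hc
  have hyS : y ∈ T.S c := mem_S_of hy
  have h1 := corr (T := T) hc y
  have hyG : c y = 0 := slot_ker' hyS
  -- right hand side
  have h2 : ∑ w : V, (T.nb c w).card * (T.nb c (w + y)).card = 2 ^ fr V := by
    have h3 : ∑ w : V, (T.nb c w).card * (T.nb c (w + y)).card =
        ∑ w ∈ T.nb c y, (T.nb c w).card * (T.nb c (w + y)).card := by
      symm
      apply sum_subset (subset_univ _)
      intro w _ hw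
      rw [mem_nb] at hw
      by_contra hne
      have h4 : (T.nb c w).card ≠ 0 := left_ne_zero_of_mul hne
      have h5 : (T.nb c (w + y)).card ≠ 0 := right_ne_zero_of_mul hne
      have h6 : w ∈ T.S c := by
        obtain ⟨a, ha⟩ := card_pos.1 (Nat.pos_of_ne_zero h4)
        exact mem_S_of (mem_nb.1 ha)
      have h7 : w + y ∈ T.S c := by
        obtain ⟨a, ha⟩ := card_pos.1 (Nat.pos_of_ne_zero h5)
        exact mem_S_of (mem_nb.1 ha)
      obtain ⟨x, h8, h9⟩ := common h6 h7
      have h10 : T.t y x = 0 := by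
        have := T.tadd' w y x
        rw [h8, h9] at this
        simpa using this
      have h11 := hg.2 y hyS x (mem_S_of' h8) h10
      subst h11
      exact hw (by rw [T.symm]; exact h8)
    rw [h3]
    have h4 : ∀ w ∈ T.nb c y, (T.nb c w).card * (T.nb c (w + y)).card = 4 ^ T.rho y := by
      intro w hw
      rw [mem_nb] at hw
      have hwS : w ∈ T.S c := mem_S_of' hw
      have hwyS : w + y ∈ T.S c := mem_S_of' (nb_self hw)
      rw [card_nb hwS, card_nb hwyS]
      have h5 := T.vx_card w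
      have h6 := T.vx_card (w + y)
      have h7 := good_trip hg hw
      have h8 : (T.vx w).card * (T.vx (w + y)).card * 4 ^ (T.rho w + T.rho (w + y)) =
          4 ^ T.rho y * 4 ^ (T.rho w + T.rho (w + y)) := by
        rw [← pow_add]
        have e : T.rho y + (T.rho w + T.rho (w + y)) = fr V := by omega
        rw [e, pow_add]
        calc (T.vx w).card * (T.vx (w + y)).card * (4 ^ T.rho w * 4 ^ T.rho (w + y))
            = ((T.vx w).card * 4 ^ T.rho w) * ((T.vx (w + y)).card * 4 ^ T.rho (w + y)) := by ring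
          _ = 2 ^ fr V * 2 ^ fr V := by rw [h5, h6]
          _ = 4 ^ fr V := by rw [← mul_pow]; norm_num
      exact Nat.eq_of_mul_eq_mul_right (by positivity) h8
    rw [sum_congr rfl h4, sum_const, smul_eq_mul, card_nb hyS]
    exact T.vx_card y
  rw [h2] at h1
  have h3 : ∑ b ∈ G c, T.sb c b * T.sb c (b + y) ≤ 2 ^ fr V := by
    rw [← h1]
    exact sum_le_sum_of_subset (subset_univ _)
  have h4 : ∀ b ∈ G c, T.sb c b + T.sb c (b + y) ≤ T.sb c b * T.sb c (b + y) + 1 := by
    intro b hb
    have e1 := sb_pos hatt hc hb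
    have hby : b + y ∈ G c := by
      rw [mem_G] at hb ⊢
      rw [map_add, hb, hyG, add_zero]
    have e2 := sb_pos hatt hc hby
    nlinarith
  have h5 := sum_le_sum h4
  rw [sum_add_distrib, sum_add_distrib, sum_shift (G c) y, sum_sb] at h5
  · have h6 : ∑ b ∈ G c, 1 = (G c).card := by simp
    rw [h6] at h5
    have h7 := card_G hc
    omega
  · intro b hb
    rw [mem_G] at hb ⊢
    rw [map_add, hb, hyG, add_zero]

/-- fundamental count (4) -/
theorem count4 {c : D V} {b x : V} (hx : x ∈ T.S c) (hbx : T.t b x = 0) :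
    ∑ x' ∈ T.vx b ∩ T.S c, (T.vx x ∩ T.vx x').card = ∑ y ∈ T.nb c x, (T.vx y ∩ T.vx b).card := by
  have h1 : ∀ x' ∈ T.vx b ∩ T.S c, (T.vx x ∩ T.vx x').card = ∑ y ∈ T.nb c x, if T.t x' y = c then 1 else 0 := by
    intro x' hx'
    rw [mem_inter, mem_vx] at hx'
    rw [← card_filter]
    have h2 : (T.nb c x).filter (fun y => T.t x' y = c) = T.nb c x ∩ T.nb c x' := by
      ext y; simp
    rw [h2]
    obtain ⟨w, h3, h4⟩ := common hx hx'.2
    apply card_nbij' (fun u => u + w) (fun u => u + w)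
    · intro u hu
      simp only [mem_coe, mem_inter, mem_nb, mem_vx] at hu ⊢
      rw [T.tadd, T.tadd, hu.1, hu.2, h3, h4, zero_add]
      exact ⟨rfl, rfl⟩
    · intro u hu
      simp only [mem_coe, mem_inter, mem_nb, mem_vx] at hu ⊢
      rw [T.tadd, T.tadd, hu.1, hu.2, h3, h4, add_self']
      exact ⟨rfl, rfl⟩
    · intro u _; exact add_add_self' u w
    · intro u _; exact add_add_self' u w
  rw [sum_congr rfl h1, sum_comm]
  apply sum_congr rfl
  intro y hy
  rw [mem_nb] at hy
  rw [← card_filter]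
  apply card_nbij' (fun u => u + x) (fun u => u + x)
  · intro u hu
    simp only [mem_coe, mem_filter, mem_inter, mem_vx] at hu ⊢
    refine ⟨?_, ?_⟩
    · rw [T.tadd, T.symm y u, hu.2, T.symm y x, hy, add_self']
    · rw [T.tadd, hu.1.1, hbx, add_zero]
  · intro u hu
    simp only [mem_coe, mem_filter, mem_inter, mem_vx] at hu ⊢
    have e : T.t (u + x) y = c := by rw [T.tadd', T.symm u y, hu.1, hy, zero_add]
    refine ⟨⟨?_, mem_S_of e⟩, e⟩
    rw [T.tadd, hu.2, hbx, add_zero]
  · intro u _; exact add_add_self' u x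
  · intro u _; exact add_add_self' u x

/-- elements `b` with `b ∈ X_y` for some slot -/
noncomputable def U (T : Toy V) (c : D V) : Finset V := (T.S c).biUnion (fun y => T.Xs y)

theorem mem_U {c : D V} {b : V} : b ∈ T.U c ↔ ∃ y ∈ T.S c, T.t y b = 0 ∧ T.rho b = T.rho y := by
  simp only [U, mem_biUnion, mem_Xs]

theorem U_sub {c : D V} : T.U c ⊆ G c := by
  intro b hb
  obtain ⟨y, h1, h2, h3⟩ := mem_U.1 hb
  rw [mem_G]
  exact slot_ker h1 h2

theorem pow_ge (k : ℕ) : 2 * k ≤ 2 ^ k := by
  induction k with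
  | zero => simp
  | succ k ih =>
    rw [pow_succ]
    have : 1 ≤ 2 ^ k := Nat.one_le_two_pow
    rcases Nat.eq_zero_or_pos k with rfl | h
    · simp
    · omega

/-- (F): `s(b) ≥ 3` off `U` -/
theorem sb_three (hatt : ∀ c : D V, c ≠ 0 → ∃ x y, T.t x y = c) {c : D V} (hg : T.Good c) {b : V}
    (hb : b ∈ G c) (hbU : b ∉ T.U c) : 3 ≤ T.sb c b := by
  have hpos := sb_pos hatt hg.1 hb
  have hne : (T.vx b ∩ T.S c).Nonempty := card_pos.1 hpos
  obtain ⟨x, hxm, hmin⟩ := exists_min_image (T.vx b ∩ T.S c) T.rho hne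
  rw [mem_inter, mem_vx] at hxm
  obtain ⟨hbx, hxS⟩ := hxm
  have hlt : T.rho b < T.rho x := by
    have h1 := (good_le hg hxS (T.comm.1 hbx)).1
    rcases Nat.lt_or_ge (T.rho b) (T.rho x) with h | h
    · exact h
    · exact absurd (mem_U.2 ⟨x, hxS, T.comm.1 hbx, le_antisymm h1 h⟩) hbU
  have h4 := count4 (T := T) hxS hbx
  -- lower bound for the right hand side
  have h5 : 2 * (T.vx x).card ≤ ∑ y ∈ T.nb c x, (T.vx y ∩ T.vx b).card := by
    have e1 : ∀ y ∈ T.nb c x, 2 * (fr V - (T.rho y + T.rho b + T.rho (y + b))) ≤ (T.vx y ∩ T.vx b).card := by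
      intro y _
      have h6 := T.inter_card y b
      have h7 := T.trip_le y b
      have h8 : (T.vx y ∩ T.vx b).card = 2 ^ (fr V - (T.rho y + T.rho b + T.rho (y + b))) := by
        have : (T.vx y ∩ T.vx b).card * 2 ^ (T.rho y + T.rho b + T.rho (y + b)) =
            2 ^ (fr V - (T.rho y + T.rho b + T.rho (y + b))) * 2 ^ (T.rho y + T.rho b + T.rho (y + b)) := by
          rw [h6, ← pow_add]
          congr 1
          omega
        exact Nat.eq_of_mul_eq_mul_right (by positivity) this
      rw [h8]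
      exact pow_ge _
    refine le_trans ?_ (sum_le_sum e1)
    rw [← mul_sum]
    apply Nat.mul_le_mul_left
    -- the sum of the exponents
    have e2 : ∑ y ∈ T.nb c x, (fr V - (T.rho y + T.rho b + T.rho (y + b))) +
        ∑ y ∈ T.nb c x, (T.rho y + T.rho b + T.rho (y + b)) = ∑ y ∈ T.nb c x, fr V := by
      rw [← sum_add_distrib]
      apply sum_congr rfl
      intro y _
      have h7 := T.trip_le y b
      omega
    have e3 : ∑ y ∈ T.nb c x, fr V = ∑ y ∈ T.nb c x, (T.rho y + T.rho (y + x) + T.rho x) := by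
      apply sum_congr rfl
      intro y hy
      rw [mem_nb] at hy
      have := good_trip hg hy
      omega
    have s1 : ∑ y ∈ T.nb c x, T.rho (y + x) = ∑ y ∈ T.nb c x, T.rho y := by
      apply sum_shift
      intro z hz
      rw [mem_nb] at hz ⊢
      exact nb_self hz
    have s2 : ∑ y ∈ T.nb c x, T.rho (y + b) = ∑ y ∈ T.nb c x, T.rho y := by
      apply sum_shift
      intro z hz
      rw [mem_nb] at hz ⊢
      exact nb_add hz (T.comm.1 hbx)
    rw [e3] at e2
    simp only [sum_add_distrib, s1, s2, sum_const, smul_eq_mul] at e2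
    rw [← card_nb hxS]
    have e4 : (T.nb c x).card * (T.rho b + 1) ≤ (T.nb c x).card * T.rho x := Nat.mul_le_mul_left _ hlt
    rw [mul_add, mul_one] at e4
    omega
  rw [← h4] at h5
  -- upper bound for the left hand side
  have hxm : x ∈ T.vx b ∩ T.S c := by simp [hbx, hxS]
  rw [← add_sum_erase _ _ hxm, inter_self] at h5
  have h6 : ∀ x' ∈ (T.vx b ∩ T.S c).erase x, 2 * (T.vx x ∩ T.vx x').card ≤ (T.vx x).card := by
    intro x' hx'
    rw [mem_erase] at hx'
    have h7 := hmin x' hx'.2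
    have h8 := T.rho_pos (x := x + x') (fun e => hx'.1 (eq_of_add e).symm)
    have h9 := T.inter_card x x'
    have h10 := T.vx_card x
    have h11 : 2 * (T.vx x ∩ T.vx x').card * 4 ^ T.rho x ≤ (T.vx x).card * 4 ^ T.rho x := by
      rw [h10, ← h9]
      have e1 : 4 ^ T.rho x = 2 ^ (2 * T.rho x) := by rw [pow_mul]; norm_num
      rw [e1]
      calc 2 * (T.vx x ∩ T.vx x').card * 2 ^ (2 * T.rho x)
          = (T.vx x ∩ T.vx x').card * 2 ^ (2 * T.rho x + 1) := by rw [pow_succ]; ring
        _ ≤ _ := Nat.mul_le_mul_left _ (Nat.pow_le_pow_right (by norm_num) (by omega))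
    exact Nat.le_of_mul_le_mul_right h11 (by positivity)
  have h7 := sum_le_sum h6
  rw [← mul_sum, sum_const, smul_eq_mul] at h7
  have h8 := card_erase_add_one hxm
  have h9 : 0 < (T.vx x).card := by
    have := vx_two (T := T) (slot_ne hg.1 hxS)
    omega
  have h10 : 2 * (T.vx x).card ≤ ((T.vx b ∩ T.S c).erase x).card * (T.vx x).card := by omega
  have h11 := Nat.le_of_mul_le_mul_right h10 h9
  unfold sb
  omega

theorem sb_zero (c : D V) : T.sb c 0 = (T.S c).card := by
  unfold sb
  congr 1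
  ext x
  rw [mem_inter, mem_vx]
  constructor
  · exact fun h => h.2
  · exact fun h => ⟨T.zero_left x, h⟩

theorem zero_notMem_U {c : D V} (hc : c ≠ 0) : (0 : V) ∉ T.U c := by
  intro h
  obtain ⟨y, h1, h2, h3⟩ := mem_U.1 h
  have := T.rho_pos (slot_ne hc h1)
  rw [T.rho_zero] at h3
  omega

/-- Case II forces `|S| ≤ 3` -/
theorem caseII (hatt : ∀ c : D V, c ≠ 0 → ∃ x y, T.t x y = c) {c : D V} (hg : T.Good c)
    (h2 : ∀ y ∈ T.S c, 2 * (T.Xs y).card ≤ (T.vx y).card) : (T.S c).card ≤ 3 := by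
  have hc := hg.1
  have h3 := mass_le hatt hg
  have h4 : 2 * (T.U c).card ≤ T.mass c := by
    have e1 : (T.U c).card ≤ ∑ y ∈ T.S c, (T.Xs y).card := card_biUnion_le
    have e2 := sum_le_sum h2
    rw [← mul_sum] at e2
    unfold mass
    omega
  have h5 : (T.U c).card + 3 * ((G c).card - (T.U c).card) + ((T.S c).card - 3) ≤ T.mass c := by
    rw [← sum_sb (T := T) c, ← sum_sdiff (U_sub (T := T) (c := c))]
    have e1 : (T.U c).card ≤ ∑ b ∈ T.U c, T.sb c b := by
      rw [card_eq_sum_ones]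
      exact sum_le_sum (fun b hb => sb_pos hatt hc (U_sub hb))
    have h0 : (0 : V) ∈ G c \ T.U c := by
      rw [mem_sdiff, mem_G]
      exact ⟨map_zero c, zero_notMem_U hc⟩
    have e2 : 3 * (G c \ T.U c).card + ((T.S c).card - 3) ≤ ∑ b ∈ G c \ T.U c, T.sb c b := by
      rw [← add_sum_erase _ _ h0, sb_zero]
      have e3 : 3 * ((G c \ T.U c).erase 0).card ≤ ∑ b ∈ (G c \ T.U c).erase 0, T.sb c b := by
        rw [mul_comm, ← smul_eq_mul, ← sum_const]
        apply sum_le_sum
        intro b hb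
        rw [mem_erase, mem_sdiff] at hb
        exact sb_three hatt hg hb.2.1 hb.2.2
      have e4 := card_erase_add_one h0
      have e5 : 3 ≤ (T.S c).card := by
        rw [← sb_zero (T := T)]
        rw [mem_sdiff] at h0
        exact sb_three hatt hg h0.1 h0.2
      omega
    rw [card_sdiff_of_subset U_sub] at e2
    omega
  have h6 : (T.U c).card ≤ (G c).card := card_le_card U_sub
  omega

end Toy

end Pool.Agent.TOYW
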