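import Pool.Agent.ESL.EVEN

/-!
The world `|I^3| = 2` with duality (Gorenstein of socle degree three), `-1 = 1`: an alternating trilinear form `t` on
a finite `F_2`-space, linked, such that every value `c` of `t` satisfies `D(c) = ker c`.  Problem MP_d26ff6_al.
-/

set_option linter.unusedSectionVars false
set_option linter.unusedVariables false

namespace Pool.Agent.TOYW

open Pool.Agent.ESL Finset
open scoped Classical

/-- alternating trilinear linked forms with `D(c) = ker c` for all values `c ≠ 0` -/
structure Toy (V : Type) [AddCommGroup V] [Module (ZMod 2) V] where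
  t : V →ₗ[ZMod 2] Fm V
  symm : ∀ x y, t x y = t y x
  symm' : ∀ x y z, t x y z = t x z y
  alt : ∀ x, t x x = 0
  link : ∀ x y a b, t x a = t y b → ∃ z, t x z = t x a ∧ t y z = t x a
  cov : ∀ c : D V, c ≠ 0 → (∃ x y, t x y = c) → ∀ b, c b = 0 → ∃ s a, t s a = c ∧ t s b = 0
  nondeg : ∀ x, (∀ y, t x y = 0) → x = 0

variable {V : Type} [AddCommGroup V] [Module (ZMod 2) V] [Fintype V]

noncomputable instance instFD : Fintype (D V) := Fintype.ofFinite _

namespace Toy

variable (T : Toy V)

/-- `V_x` -/
noncomputable def vx (x : V) : Finset V := univ.filter (fun y => T.t x y = 0)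

/-- `Q_x` -/
noncomputable def qx (x : V) : Finset (D V) := univ.filter (fun c => ∃ y, T.t x y = c)

/-- `N_c(x)` -/
noncomputable def nb (c : D V) (x : V) : Finset V := univ.filter (fun y => T.t x y = c)

/-- half the rank of `t x` -/
noncomputable def rho (x : V) : ℕ := fr (LinearMap.range (T.t x)) / 2

variable {T}

@[simp] theorem mem_vx {x y : V} : y ∈ T.vx x ↔ T.t x y = 0 := by simp [vx]

@[simp] theorem mem_qx {x : V} {c : D V} : c ∈ T.qx x ↔ ∃ y, T.t x y = c := by simp [qx]

@[simp] theorem mem_nb {x y : V} {c : D V} : y ∈ T.nb c x ↔ T.t x y = c := by simp [nb]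

end Toy

end Pool.Agent.TOYW
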