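import Pool.Agent.TOYW.CaseI

/-!
There is a rigid element, and all ranks are `1` or maximal.
-/

set_option linter.unusedSectionVars false
set_option linter.unusedVariables false

namespace Pool.Agent.TOYW

open Pool.Agent.ESL Finset
open scoped Classical

variable {V : Type} [AddCommGroup V] [Module (ZMod 2) V] [Fintype V]

namespace Toy

variable {T : Toy V}

theorem vx_pair {b : V} (hb : b ≠ 0) (h : (T.vx b).card = 2) (y : V) (hy : T.t b y = 0) : y = 0 ∨ y = b := by
  have h1 : ({0, b} : Finset V) ⊆ T.vx b := by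
    intro w hw
    rw [mem_insert, mem_singleton] at hw
    rcases hw with rfl | rfl
    · simp [zero_right]
    · simp [T.alt]
  have h2 : ({0, b} : Finset V) = T.vx b := by
    apply eq_of_subset_of_card_le h1
    rw [h, card_pair (Ne.symm hb)]
  have h3 : y ∈ T.vx b := by rw [mem_vx]; exact hy
  rw [← h2, mem_insert, mem_singleton] at h3
  exact h3

/-- `|S| ≤ 3` forces `n = 3` -/
theorem small {c : D V} (hg : T.Good c) (h : (T.S c).card ≤ 3) {v : V} (hv : v ∈ T.S c) :
    fr V = 3 ∧ (T.vx v).card = 2 := by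
  have h1 : ∀ y ∈ T.S c, (T.vx y).card = 2 ∧ fr V = 2 * T.rho y + 1 := by
    intro y hy
    have e1 : insert y (T.nb c y) ⊆ T.S c := by
      intro z hz
      rw [mem_insert, mem_nb] at hz
      rcases hz with rfl | hz
      · exact hy
      · exact mem_S_of' hz
    have e2 : y ∉ T.nb c y := by
      rw [mem_nb, T.alt]
      exact fun e => hg.1 e.symm
    have e3 := card_le_card e1
    rw [card_insert_of_notMem e2, card_nb hy] at e3
    have e4 := vx_two (T := T) (slot_ne hg.1 hy)
    have e5 : (T.vx y).card = 2 := by omega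
    refine ⟨e5, ?_⟩
    have e6 := T.vx_card y
    rw [e5, show (4 : ℕ) = 2 ^ 2 by norm_num, ← pow_mul, mul_comm, ← pow_succ] at e6
    exact (Nat.pow_right_injective (le_refl 2) e6).symm
  obtain ⟨z, hz⟩ := mem_S.1 hv
  have h2 := good_trip hg hz
  have h3 := (h1 v hv).2
  have h4 := (h1 z (mem_S_of' hz)).2
  have h5 := (h1 (z + v) (mem_S_of' (nb_self hz))).2
  exact ⟨by omega, (h1 v hv).1⟩

end Toy

open Toy

theorem dich_proof (ha : Stmt_att) : Stmt_dich := by
  intro V _ _ _ T hne
  have hatt : ∀ c : D V, c ≠ 0 → ∃ x y, T.t x y = c := fun c hc => ha V T c hc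
  obtain ⟨x0, hx0⟩ := hne
  obtain ⟨b0, _, hb0⟩ := exists_max_image (univ : Finset V) T.rho ⟨x0, mem_univ _⟩
  have hmax : ∀ y, T.rho y ≤ T.rho b0 := fun y => hb0 y (mem_univ y)
  have hb00 : b0 ≠ 0 := by
    rintro rfl
    have h1 := T.rho_pos hx0
    have h2 := hmax x0
    rw [T.rho_zero] at h2
    omega
  obtain ⟨c, v, hg, hv, hr⟩ := exists_good hatt hb00 hmax
  have hmax' : ∀ y, T.rho y ≤ T.rho v := by intro y; rw [hr]; exact hmax y
  have hv0 : v ≠ 0 := slot_ne hg.1 hv
  rcases cases hatt hg hv hmax' with ⟨d, hd, hn, hP⟩ | h2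
  · -- case I
    have hV : (T.vx v).card = 2 ^ d := by
      have h := T.vx_card v
      rw [hn, pow_add, pow_mul] at h
      have : (T.vx v).card * 4 ^ T.rho v = 2 ^ d * 4 ^ T.rho v := by rw [h]; ring
      exact Nat.eq_of_mul_eq_mul_right (by positivity) this
    have hd1 : d = 1 := by
      by_contra hne
      rcases Nat.eq_zero_or_pos d with h0 | h0
      · have := vx_two (T := T) hv0
        rw [hV, h0] at this
        omega
      · exact caseI hatt hg hP hd hn (by omega)
    subst hd1
    rw [pow_one] at hV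
    have hpair := vx_pair hv0 hV
    refine ⟨v, hv0, hpair, Or.inr ⟨hd, ?_⟩⟩
    intro y hy
    by_cases hyv : y = v
    · right; rw [hyv]
    have hc' : T.t v y ≠ 0 := by
      intro h
      rcases hpair y h with h | h
      · exact hy h
      · exact hyv h
    have hvS : v ∈ T.S (T.t v y) := mem_S_of rfl
    have hg' : T.Good (T.t v y) := by
      apply good_of hc' rfl (T.alt v) hvS
      intro u hu hvu
      rcases hpair u hvu with h | h
      · exact absurd h (slot_ne hc' hu)
      · exact h
    rcases cases hatt hg' hvS hmax' with ⟨d', hd', hn', hP'⟩ | h2'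
    · have h3 := hP' v y rfl
      unfold Perm3 at h3
      omega
    · have h3 := caseII hatt hg' h2'
      have h4 := (small hg' h3 hvS).1
      omega
  · -- case II
    have h3 := caseII hatt hg h2
    have h4 := small hg h3 hv
    refine ⟨v, hv0, vx_pair hv0 h4.2, Or.inl ?_⟩
    rw [card_pow, h4.1]
    norm_num

end Pool.Agent.TOYW
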