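import Pool.Agent.TOYW.Basic

/-!
Existence of a good symbol: no two distinct slots commute.
-/

set_option linter.unusedSectionVars false
set_option linter.unusedVariables false

namespace Pool.Agent.TOYW

open Pool.Agent.ESL Finset
open scoped Classical

variable {V : Type} [AddCommGroup V] [Module (ZMod 2) V] [Fintype V]

/-- nonzero functionals killing `x` -/
noncomputable def ann (x : V) : Finset (D V) := univ.filter (fun c => c ≠ 0 ∧ c x = 0)

theorem mem_ann {x : V} {c : D V} : c ∈ ann x ↔ c ≠ 0 ∧ c x = 0 := by simp [ann]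

theorem ann_card {x : V} (hx : x ≠ 0) : 2 * (ann x).card + 2 = 2 ^ fr V := by
  have h1 : fr (Submodule.span (ZMod 2) {x}) + fr (Submodule.span (ZMod 2) {x}).dualAnnihilator = fr V :=
    Subspace.finrank_add_finrank_dualAnnihilator_eq (Submodule.span (ZMod 2) {x})
  have h2 : fr (Submodule.span (ZMod 2) {x}) = 1 := finrank_span_singleton hx
  have h3 := card_sub (V := D V) (Submodule.span (ZMod 2) {x}).dualAnnihilator
  have h4 : (univ.filter (fun c : D V => c ∈ (Submodule.span (ZMod 2) {x}).dualAnnihilator)) =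
      insert 0 (ann x) := by
    ext c
    rw [mem_filter, mem_insert, mem_ann, Submodule.mem_dualAnnihilator]
    constructor
    · rintro ⟨_, h⟩
      by_cases h0 : c = 0
      · exact Or.inl h0
      · exact Or.inr ⟨h0, h x (Submodule.mem_span_singleton_self x)⟩
    · rintro (rfl | ⟨_, h⟩)
      · exact ⟨mem_univ _, fun _ _ => rfl⟩
      · refine ⟨mem_univ _, fun w hw => ?_⟩
        obtain ⟨a, rfl⟩ := Submodule.mem_span_singleton.1 hw
        rw [map_smul, h, smul_zero]
  rw [h4, card_insert_of_notMem (by rw [mem_ann]; tauto)] at h3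
  have h5 : fr V = fr (Submodule.span (ZMod 2) {x}).dualAnnihilator + 1 := by omega
  rw [h5, pow_succ, ← h3]
  ring

namespace Toy

variable (T : Toy V)

theorem sum_swap (x : V) (φ : V → ℕ) :
    ∑ c ∈ ann x, ∑ v ∈ T.vx x ∩ T.S c, φ v + ∑ v ∈ T.vx x, φ v = ∑ v ∈ T.vx x, φ v * 4 ^ T.rho v := by
  have h1 : ∀ c ∈ ann x, ∑ v ∈ T.vx x ∩ T.S c, φ v = ∑ v ∈ T.vx x, if c ∈ T.qx v then φ v else 0 := by
    intro c _
    rw [← sum_filter]
    apply sum_congr _ (fun _ _ => rfl)
    ext v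
    simp [S]
  rw [sum_congr rfl h1, sum_comm, ← sum_add_distrib]
  apply sum_congr rfl
  intro v hv
  rw [mem_vx] at hv
  rw [← sum_filter, sum_const, smul_eq_mul]
  have h2 : (ann x).filter (fun c => c ∈ T.qx v) = (T.qx v).erase 0 := by
    ext c
    rw [mem_filter, mem_ann, mem_erase]
    constructor
    · rintro ⟨⟨h, _⟩, h'⟩; exact ⟨h, h'⟩
    · rintro ⟨h, h'⟩
      exact ⟨⟨h, (T.qx_iff v c).1 h' x (T.comm.1 hv)⟩, h'⟩
  have h3 : ((T.qx v).erase 0).card + 1 = 4 ^ T.rho v := by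
    rw [← T.qx_card v]
    apply card_erase_add_one
    rw [mem_qx]; exact ⟨0, T.zero_right v⟩
  rw [h2, ← h3]
  ring

variable (hatt : ∀ c : D V, c ≠ 0 → ∃ x y, T.t x y = c)

include hatt

/-- covering -/
theorem cov' {c : D V} (hc : c ≠ 0) {b : V} (hb : c b = 0) : ∃ s ∈ T.S c, T.t b s = 0 := by
  obtain ⟨s, a, h1, h2⟩ := T.cov c hc (hatt c hc) b hb
  exact ⟨s, mem_S_of h1, T.comm.1 h2⟩

/-- Step 1 -/
theorem step1 {b : V} (hb : b ≠ 0) (hmax : ∀ y, T.rho y ≤ T.rho b) : fr V ≤ 3 * T.rho b := by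
  by_contra hcon
  have h2 : ∀ c ∈ ann b, 2 ≤ ∑ v ∈ T.vx b ∩ T.S c, 1 := by
    intro c hc
    rw [mem_ann] at hc
    obtain ⟨s, hs, hbs⟩ := T.cov' hatt hc.1 hc.2
    have hs' : s ∈ T.vx b ∩ T.S c := by simp [hs, hbs]
    rw [sum_const, smul_eq_mul, mul_one]
    by_contra h
    have h1 : (T.vx b ∩ T.S c).card = 1 := by
      have := card_pos.2 ⟨s, hs'⟩
      omega
    rw [card_eq_one] at h1
    obtain ⟨v, hv⟩ := h1
    have hvm : v ∈ T.vx b ∩ T.S c := by rw [hv]; exact mem_singleton_self v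
    rw [mem_inter, mem_vx] at hvm
    obtain ⟨y, hy⟩ := mem_S.1 hvm.2
    have : T.rho b + T.rho y + T.rho (b + y) = fr V := by
      apply T.trip_eq
      intro w hw1 hw2
      have : v + w ∈ T.vx b ∩ T.S c := by
        rw [mem_inter, mem_vx, T.tadd, hvm.1, hw1, add_zero]
        exact ⟨rfl, slot_add hy (T.comm.1 hw2)⟩
      rw [hv, mem_singleton] at this
      simpa using this
    have h3 := hmax y
    have h4 := hmax (b + y)
    omega
  have h3 := sum_le_sum h2
  rw [sum_const, smul_eq_mul] at h3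
  have h4 := T.sum_swap b (fun _ => 1)
  have h5 : ∑ v ∈ T.vx b, 1 * 4 ^ T.rho v + 4 ^ T.rho b ≤ (T.vx b).card * 4 ^ T.rho b + 1 := by
    have h0 : (0 : V) ∈ T.vx b := by simp [zero_right]
    rw [← add_sum_erase _ _ h0, T.rho_zero]
    have h6 : ∑ v ∈ (T.vx b).erase 0, 1 * 4 ^ T.rho v ≤ ((T.vx b).erase 0).card * 4 ^ T.rho b := by
      rw [← smul_eq_mul (a := ((T.vx b).erase 0).card), ← sum_const]
      apply sum_le_sum
      intro v _
      rw [one_mul]
      exact Nat.pow_le_pow_right (by norm_num) (hmax v)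
    have h7 : ((T.vx b).erase 0).card + 1 = (T.vx b).card := card_erase_add_one h0
    rw [← h7]
    nlinarith
  rw [T.vx_card b] at h5
  have h6 := ann_card hb
  have h7 : ∑ v ∈ T.vx b, 1 = (T.vx b).card := by simp
  have h8 : 0 < (T.vx b).card := card_pos.2 ⟨0, by simp [zero_right]⟩
  have h9 : 4 ^ 1 ≤ 4 ^ T.rho b := Nat.pow_le_pow_right (by norm_num) (T.rho_pos hb)
  omega

/-- Step 2 -/
theorem step2 {x : V} (hx : x ≠ 0) (hmax : ∀ y, T.rho y ≤ T.rho x) :
    ∃ c v, c ≠ 0 ∧ T.rho v = T.rho x ∧ T.t x v = 0 ∧ v ∈ T.S c ∧ ∀ u ∈ T.S c, T.t x u = 0 → u = v := by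
  have h3R := T.step1 hatt hx hmax
  by_contra hcon
  push Not at hcon
  set wt : V → ℕ := fun v => if T.rho v = T.rho x then 1 else 2 with hwt
  have hwt1 : ∀ v, 1 ≤ wt v := by intro v; simp only [hwt]; split_ifs <;> norm_num
  have h2 : ∀ c ∈ ann x, 2 ≤ ∑ v ∈ T.vx x ∩ T.S c, wt v := by
    intro c hc
    rw [mem_ann] at hc
    obtain ⟨s, hs, hbs⟩ := T.cov' hatt hc.1 hc.2
    have hs' : s ∈ T.vx x ∩ T.S c := by simp [hs, hbs]
    by_cases hall : ∀ v ∈ T.vx x ∩ T.S c, T.rho v = T.rho x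
    · obtain ⟨u, hu1, hu2, hu3⟩ := hcon c s hc.1 (hall s hs') hbs hs
      have hu' : u ∈ T.vx x ∩ T.S c := by simp [hu1, hu2]
      have h4 : ({s, u} : Finset V) ⊆ T.vx x ∩ T.S c := by
        intro w hw
        rw [mem_insert, mem_singleton] at hw
        rcases hw with rfl | rfl
        · exact hs'
        · exact hu'
      have h5 := card_le_card h4
      rw [card_pair (fun e => hu3 e.symm)] at h5
      calc 2 ≤ (T.vx x ∩ T.S c).card := h5
        _ = ∑ v ∈ T.vx x ∩ T.S c, 1 := by simp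
        _ ≤ _ := sum_le_sum (fun v _ => hwt1 v)
    · push Not at hall
      obtain ⟨v, hv, hv'⟩ := hall
      calc 2 = wt v := by simp only [hwt]; rw [if_neg hv']
        _ ≤ _ := single_le_sum (f := wt) (fun _ _ => Nat.zero_le _) hv
  have h3 := sum_le_sum h2
  rw [sum_const, smul_eq_mul] at h3
  have h4 := T.sum_swap x wt
  set φ : V → ℕ := fun v => wt v * (4 ^ T.rho v - 1) with hφ
  have h5 : ∑ v ∈ T.vx x, wt v * 4 ^ T.rho v = ∑ v ∈ T.vx x, φ v + ∑ v ∈ T.vx x, wt v := by
    rw [← sum_add_distrib]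
    apply sum_congr rfl
    intro v _
    simp only [hφ]
    have : 0 < 4 ^ T.rho v := by positivity
    obtain ⟨k, hk⟩ : ∃ k, 4 ^ T.rho v = k + 1 := ⟨4 ^ T.rho v - 1, by omega⟩
    rw [hk, Nat.add_sub_cancel]
    ring
  have h6 : ∀ v ∈ T.vx x, 8 * (φ v + φ (v + x)) ≤ 9 * 4 ^ T.rho x := by
    intro v hv
    rw [mem_vx] at hv
    have hφx : φ x ≤ 4 ^ T.rho x := by
      have e0 : wt x = 1 := if_pos rfl
      have e1 : φ x = wt x * (4 ^ T.rho x - 1) := rfl
      rw [e1, e0, one_mul]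
      exact Nat.sub_le _ _
    have hφ0 : φ 0 = 0 := by
      simp only [hφ]
      rw [T.rho_zero]
      simp
    by_cases hv0 : v = 0
    · subst hv0
      rw [zero_add, hφ0]
      omega
    by_cases hvx : v = x
    · subst hvx
      rw [add_self', hφ0]
      omega
    have h7 := T.trip_comm hx hv0 (Ne.symm hvx) hv
    rw [add_comm x v] at h7
    have hR : 1 ≤ T.rho x := T.rho_pos hx
    have aux : ∀ u w : V, T.rho u = T.rho x → T.rho u + T.rho w + 2 ≤ 2 * T.rho x →
        8 * (φ u + φ w) ≤ 9 * 4 ^ T.rho x := by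
      intro u w hu huw
      have e1 : φ u ≤ 4 ^ T.rho x := by
        have e0 : wt u = 1 := if_pos hu
        have e1 : φ u = wt u * (4 ^ T.rho u - 1) := rfl
        rw [e1, e0, one_mul, hu]
        exact Nat.sub_le _ _
      have e2 : φ w ≤ 2 * 4 ^ T.rho w := by
        simp only [hφ, hwt]
        split_ifs <;> omega
      have e3 : 4 ^ T.rho w * 16 ≤ 4 ^ T.rho x := by
        have : 4 ^ (T.rho w + 2) ≤ 4 ^ T.rho x := Nat.pow_le_pow_right (by norm_num) (by omega)
        rwa [pow_add] at this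
      omega
    by_cases e1 : T.rho v = T.rho x
    · exact aux v (v + x) e1 (by omega)
    by_cases e2 : T.rho (v + x) = T.rho x
    · rw [add_comm (φ v)]
      exact aux (v + x) v e2 (by omega)
    · have f1 : φ v ≤ 2 * 4 ^ T.rho v := by
        simp only [hφ, hwt]
        split_ifs <;> omega
      have f2 : φ (v + x) ≤ 2 * 4 ^ T.rho (v + x) := by
        simp only [hφ, hwt]
        split_ifs <;> omega
      have g1 : 4 ^ T.rho v * 4 ≤ 4 ^ T.rho x := by
        have := hmax v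
        have : 4 ^ (T.rho v + 1) ≤ 4 ^ T.rho x := Nat.pow_le_pow_right (by norm_num) (by omega)
        rwa [pow_add, pow_one] at this
      have g2 : 4 ^ T.rho (v + x) * 4 ≤ 4 ^ T.rho x := by
        have := hmax (v + x)
        have : 4 ^ (T.rho (v + x) + 1) ≤ 4 ^ T.rho x := Nat.pow_le_pow_right (by norm_num) (by omega)
        rwa [pow_add, pow_one] at this
      omega
  have h7 := sum_le_sum h6
  rw [← mul_sum, sum_add_distrib, sum_const, smul_eq_mul] at h7
  have h8 : ∑ v ∈ T.vx x, φ (v + x) = ∑ v ∈ T.vx x, φ v := by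
    apply sum_shift
    intro y hy
    rw [mem_vx] at hy ⊢
    rw [T.tadd, hy, T.alt, add_zero]
  rw [h8] at h7
  have h9 := T.vx_card x
  have h10 : (T.vx x).card * (9 * 4 ^ T.rho x) = 9 * 2 ^ fr V := by rw [← h9]; ring
  rw [h10] at h7
  have h11 := ann_card hx
  have h12 : 2 ≤ (T.vx x).card := by
    have : ({0, x} : Finset V) ⊆ T.vx x := by
      intro w hw
      rw [mem_insert, mem_singleton] at hw
      rcases hw with rfl | rfl
      · simp [zero_right]
      · simp [T.alt]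
    have h := card_le_card this
    rwa [card_pair (Ne.symm hx)] at h
  have h13 : 4 ^ 1 ≤ 4 ^ T.rho x := Nat.pow_le_pow_right (by norm_num) (T.rho_pos hx)
  have h14 : 8 ≤ 2 ^ fr V := by
    rw [← h9]
    calc 8 = 2 * 4 ^ 1 := by norm_num
      _ ≤ _ := Nat.mul_le_mul h12 h13
  omega

omit hatt

/-- no two distinct slots commute -/
def Good (c : D V) : Prop := c ≠ 0 ∧ ∀ y ∈ T.S c, ∀ u ∈ T.S c, T.t y u = 0 → u = y

variable {T}

/-- propagation along an edge -/
theorem prop_step {c : D V} {y z : V} (hy : ∀ u ∈ T.S c, T.t y u = 0 → u = y) (hyz : T.t y z = c) :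
    ∀ u ∈ T.S c, T.t z u = 0 → u = z := by
  intro u hu hzu
  have h1 : y + u ∈ T.S c := slot_add hyz (T.comm.1 hzu)
  have hyu : u + y ∈ T.S c := by rwa [add_comm]
  -- `w` a common neighbour of `u` and `u + y`
  obtain ⟨w, h2, h3⟩ := common hu hyu
  have h4 : T.t y w = 0 := by
    have := T.tadd' u y w
    rw [h2, h3] at this
    simpa using this
  have h5 : w = y := hy w (mem_S_of' h2) h4
  subst h5
  have h6 : T.t w u = c := by rw [T.symm]; exact h2
  have h7 : T.t w (z + u) = 0 := nb_sub hyz h6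
  have h8 : w + (z + u) ∈ T.S c := by
    refine mem_S_of (y := u) ?_
    rw [T.tadd', T.tadd', h6, hzu, T.alt, add_zero, add_zero]
  have h9 : w + (z + u) = w := by
    apply hy _ h8
    rw [T.tadd, T.alt, h7, add_zero]
  have h10 : z + u = 0 := by simpa using h9
  exact (eq_of_add h10).symm

theorem good_of_one {c : D V} (hc : c ≠ 0) {v : V} (hv : v ∈ T.S c)
    (h : ∀ u ∈ T.S c, T.t v u = 0 → u = v) : T.Good c := by
  refine ⟨hc, ?_⟩
  intro y hy
  obtain ⟨z, h1, h2⟩ := common hv hy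
  exact prop_step (prop_step h h1) (by rw [T.symm]; exact h2)

/-- Steps 3, 4 -/
theorem good_of {c : D V} (hc : c ≠ 0) {x v : V} (hr : T.rho v = T.rho x) (hxv : T.t x v = 0)
    (hv : v ∈ T.S c) (h : ∀ u ∈ T.S c, T.t x u = 0 → u = v) : T.Good c := by
  apply good_of_one hc hv
  -- ranks on `N(v)`
  have h1 : ∀ y ∈ T.nb c v, T.rho y + T.rho (y + x) + T.rho x = fr V := by
    intro y hy
    rw [mem_nb] at hy
    have h2 : T.rho x + T.rho y + T.rho (x + y) = fr V := by
      apply T.trip_eq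
      intro w hw1 hw2
      have h3 : v + w ∈ T.S c := slot_add hy (T.comm.1 hw2)
      have h4 := h _ h3 (by rw [T.tadd, hxv, hw1, add_zero])
      simpa using h4
    rw [add_comm x y] at h2
    omega
  have h2 : ∀ y ∈ T.nb c v, T.rho y + T.rho (y + v) + T.rho v ≤ fr V := by
    intro y hy
    have := T.trip_le v y
    rw [add_comm v y] at this
    omega
  have s1 : ∑ y ∈ T.nb c v, T.rho (y + x) = ∑ y ∈ T.nb c v, T.rho y := by
    apply sum_shift
    intro y hy
    rw [mem_nb] at hy ⊢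
    exact nb_add hy (T.comm.1 hxv)
  have s2 : ∑ y ∈ T.nb c v, T.rho (y + v) = ∑ y ∈ T.nb c v, T.rho y := by
    apply sum_shift
    intro y hy
    rw [mem_nb] at hy ⊢
    exact nb_self hy
  have h3 : ∑ y ∈ T.nb c v, (T.rho y + T.rho (y + v) + T.rho v) = ∑ y ∈ T.nb c v, fr V := by
    rw [← sum_congr rfl h1, sum_add_distrib, sum_add_distrib, sum_add_distrib, sum_add_distrib, s1, s2, hr]
  have h4 := (sum_eq_sum_iff_of_le h2).1 h3
  intro u hu hvu
  obtain ⟨y, hy1, hy2⟩ := common hv hu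
  have h5 := h4 y (by rw [mem_nb]; exact hy1)
  have h6 : u + v = 0 := by
    apply T.trip_eq' (x := v) (y := y)
    · rw [add_comm v y]; omega
    · rw [T.tadd, hvu, T.alt, add_zero]
    · rw [T.symm, T.tadd', hy1, hy2, add_self']
  exact eq_of_add h6

include hatt in
theorem exists_good {x : V} (hx : x ≠ 0) (hmax : ∀ y, T.rho y ≤ T.rho x) :
    ∃ c v, T.Good c ∧ v ∈ T.S c ∧ T.rho v = T.rho x := by
  obtain ⟨c, v, hc, hr, hxv, hv, h⟩ := T.step2 hatt hx hmax
  exact ⟨c, v, good_of hc hr hxv hv h, hv, hr⟩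

/-! ### Step 5 -/

theorem good_trip {c : D V} (hg : T.Good c) {y z : V} (h : T.t y z = c) :
    T.rho y + T.rho z + T.rho (z + y) = fr V := by
  have h1 : T.rho y + T.rho z + T.rho (y + z) = fr V := by
    apply T.trip_eq
    intro u hu1 hu2
    have h2 : y + u ∈ T.S c := slot_add h (T.comm.1 hu2)
    have h3 := hg.2 y (mem_S_of h) _ h2 (by rw [T.tadd, T.alt, hu1, add_zero])
    simpa using h3
  rw [add_comm z y]
  exact h1

/-- (M), first half -/
theorem good_le {c : D V} (hg : T.Good c) {y b : V} (hy : y ∈ T.S c) (hb : T.t y b = 0) :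
    T.rho b ≤ T.rho y ∧ (T.rho b = T.rho y → ∀ z ∈ T.nb c y, T.rho z + T.rho (z + b) + T.rho y = fr V) := by
  have h1 : ∀ z ∈ T.nb c y, T.rho z + T.rho (z + y) + T.rho y = fr V := by
    intro z hz
    rw [mem_nb] at hz
    have := good_trip hg hz
    omega
  have h2 : ∀ z ∈ T.nb c y, T.rho z + T.rho (z + b) + T.rho b ≤ fr V := by
    intro z hz
    have := T.trip_le b z
    rw [add_comm b z] at this
    omega
  have s1 : ∑ z ∈ T.nb c y, T.rho (z + y) = ∑ z ∈ T.nb c y, T.rho z := by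
    apply sum_shift
    intro z hz
    rw [mem_nb] at hz ⊢
    exact nb_self hz
  have s2 : ∑ z ∈ T.nb c y, T.rho (z + b) = ∑ z ∈ T.nb c y, T.rho z := by
    apply sum_shift
    intro z hz
    rw [mem_nb] at hz ⊢
    exact nb_add hz hb
  have h3 := sum_le_sum h2
  rw [← sum_congr rfl h1, sum_add_distrib, sum_add_distrib, sum_add_distrib, sum_add_distrib, s1, s2,
    sum_const, sum_const, smul_eq_mul, smul_eq_mul] at h3
  have h4 : 0 < (T.nb c y).card := by
    obtain ⟨z, hz⟩ := mem_S.1 hy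
    exact card_pos.2 ⟨z, by rw [mem_nb]; exact hz⟩
  have h5 : (T.nb c y).card * T.rho b ≤ (T.nb c y).card * T.rho y := by omega
  have h6 : T.rho b ≤ T.rho y := Nat.le_of_mul_le_mul_left h5 h4
  refine ⟨h6, ?_⟩
  intro he
  have h7 : ∑ z ∈ T.nb c y, (T.rho z + T.rho (z + b) + T.rho b) = ∑ z ∈ T.nb c y, fr V := by
    rw [← sum_congr rfl h1, sum_add_distrib, sum_add_distrib, sum_add_distrib, sum_add_distrib, s1, s2, he]
  have h8 := (sum_eq_sum_iff_of_le h2).1 h7
  intro z hz
  have := h8 z hz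
  omega

/-- (M), second half -/
theorem good_unique {c : D V} (hg : T.Good c) {y b u : V} (hy : y ∈ T.S c) (hb : T.t y b = 0)
    (he : T.rho b = T.rho y) (hu : u ∈ T.S c) (hbu : T.t b u = 0) : u = y := by
  obtain ⟨z, h1, h2⟩ := common hy hu
  have h3 := (good_le hg hy hb).2 he z (by rw [mem_nb]; exact h1)
  have h4 : u + y = 0 := by
    apply T.trip_eq' (x := b) (y := z)
    · rw [add_comm b z]; omega
    · rw [T.tadd, hbu, T.comm.1 hb, add_zero]
    · rw [T.symm, T.tadd', h1, h2, add_self']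
  exact eq_of_add h4

end Toy

end Pool.Agent.TOYW
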