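import Pool.Agent.TOYW.Stmts

/-!
T3: a toy world is `φ ∧ ω` (from the sizes and the dichotomy of ranks).
-/

set_option linter.unusedSectionVars false
set_option linter.unusedVariables false

namespace Pool.Agent.TOYW

open Pool.Agent.ESL Finset
open scoped Classical

theorem st_z2 (a : ZMod 2) : a = 0 ∨ a = 1 := by
  revert a; decide

section
variable {V : Type} [AddCommGroup V] [Module (ZMod 2) V]

theorem st_add_self (x : V) : x + x = 0 := by
  have h := two_smul (ZMod 2) x
  rw [show (2 : ZMod 2) = 0 from rfl, zero_smul] at h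
  exact h.symm

theorem st_eq_of_add {x y : V} (h : x + y = 0) : x = y := by
  have h1 : x + y + y = 0 + y := by rw [h]
  rwa [add_assoc, st_add_self, add_zero, zero_add] at h1

theorem st_add_cancel (x y : V) : x + y + y = x := by
  rw [add_assoc, st_add_self, add_zero]

theorem st_add_cancel' (x y : V) : x + (x + y) = y := by
  rw [← add_assoc, st_add_self, zero_add]

theorem st_eq_of_ker {φ c : D V} (hc : c ≠ 0) (h : ∀ z, φ z = 0 → c z = 0) : c = φ := by
  obtain ⟨z0, hz0⟩ : ∃ z0, c z0 ≠ 0 := by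
    by_contra hh
    push Not at hh
    exact hc (LinearMap.ext hh)
  have h1 : φ z0 = 1 := (st_z2 (φ z0)).resolve_left (fun h0 => hz0 (h z0 h0))
  have h2 : c z0 = 1 := (st_z2 _).resolve_left hz0
  ext z
  rcases st_z2 (φ z) with h0 | h0
  · rw [h0, h z h0]
  · have h3 : c (z + z0) = 0 := h _ (by rw [map_add, h0, h1]; decide)
    rw [map_add, h2] at h3
    rcases st_z2 (c z) with h4 | h4
    · rw [h4] at h3
      exact absurd h3 (by decide)
    · rw [h4, h0]

theorem st_two {s : Finset V} {x y : V} (h : s.card = 2) (h0 : (0 : V) ∈ s) (hx : x ∈ s)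
    (hne : x ≠ 0) (hy : y ∈ s) : y = 0 ∨ y = x := by
  by_contra hh
  push Not at hh
  have h1 : ({0, x, y} : Finset V) ⊆ s := by
    intro z hz
    simp only [mem_insert, mem_singleton] at hz
    rcases hz with rfl | rfl | rfl
    · exact h0
    · exact hx
    · exact hy
  have h2 : ({0, x, y} : Finset V).card = 3 := by
    rw [card_insert_of_notMem, card_insert_of_notMem, card_singleton]
    · simp only [mem_singleton]
      exact fun h => hh.2 h.symm
    · simp only [mem_insert, mem_singleton]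
      rintro (h | h)
      · exact hne h.symm
      · exact hh.1 h.symm
  have h3 := card_le_card h1
  omega

theorem st_four {W : Type} [AddCommGroup W] [Module (ZMod 2) W] {s : Finset W} {x y z : W}
    (h : s.card = 4) (h0 : (0 : W) ∈ s) (hx : x ∈ s) (hy : y ∈ s) (hxy : x + y ∈ s)
    (h1 : x ≠ 0) (h2 : y ≠ 0) (h3 : x ≠ y) (hz : z ∈ s) : z = 0 ∨ z = x ∨ z = y ∨ z = x + y := by
  have e1 : ({0, x, y, x + y} : Finset W) ⊆ s := by
    intro z hz
    simp only [mem_insert, mem_singleton] at hz
    rcases hz with rfl | rfl | rfl | rfl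
    · exact h0
    · exact hx
    · exact hy
    · exact hxy
  have e2 : ({0, x, y, x + y} : Finset W).card = 4 := by
    rw [card_insert_of_notMem, card_insert_of_notMem, card_insert_of_notMem, card_singleton]
    · simp only [mem_singleton]
      intro e
      exact h1 (by simpa using e.symm)
    · simp only [mem_insert, mem_singleton]
      rintro (e | e)
      · exact h3 e
      · exact h2 (by simpa using e.symm)
    · simp only [mem_insert, mem_singleton]
      rintro (e | e | e)
      · exact h1 e.symm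
      · exact h2 e.symm
      · exact h3 (st_eq_of_add e.symm)
  have e3 : ({0, x, y, x + y} : Finset W) = s := eq_of_subset_of_card_le e1 (by rw [h, e2])
  rw [← e3] at hz
  simpa only [mem_insert, mem_singleton] using hz

end

section
variable {V : Type} [AddCommGroup V] [Module (ZMod 2) V] [Fintype V]

theorem st_ker_card {φ : D V} (hφ : φ ≠ 0) :
    2 * (univ.filter (fun z : V => φ z = 0)).card = Fintype.card V := by
  obtain ⟨z0, hz0⟩ : ∃ z0, φ z0 ≠ 0 := by
    by_contra hh
    push Not at hh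
    exact hφ (LinearMap.ext hh)
  have h1 : φ z0 = 1 := (st_z2 _).resolve_left hz0
  have h2 : (univ.filter (fun z : V => φ z = 0)).card = (univ.filter (fun z : V => ¬ φ z = 0)).card := by
    refine card_nbij' (fun z => z + z0) (fun z => z + z0) ?_ ?_ ?_ ?_
    · intro z hz
      simp only [coe_filter, mem_univ, true_and, Set.mem_ofPred_eq] at hz ⊢
      rw [map_add, hz, h1]
      decide
    · intro z hz
      simp only [coe_filter, mem_univ, true_and, Set.mem_ofPred_eq] at hz ⊢
      rw [map_add, (st_z2 _).resolve_left hz, h1]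
      decide
    · intro z _
      exact st_add_cancel z z0
    · intro z _
      exact st_add_cancel z z0
  have h3 := card_filter_add_card_filter_not (s := (univ : Finset V)) (fun z : V => φ z = 0)
  rw [card_univ] at h3
  omega

namespace Toy

variable (T : Toy V)

theorem st_self (x : V) : x ∈ T.vx x := by rw [mem_vx]; exact T.alt x

theorem st_zero (x : V) : (0 : V) ∈ T.vx x := by rw [mem_vx, map_zero]

theorem st_comm {x y : V} (h : T.t x y = 0) : T.t y x = 0 := by rw [T.symm, h]

theorem st_val (x y : V) : T.t x y x = 0 := by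
  rw [T.symm', T.alt]; rfl

theorem st_val' (x y : V) : T.t x y y = 0 := by
  rw [T.symm x y, T.st_val]

theorem st_zero_q (x : V) : (0 : D V) ∈ T.qx x := by
  rw [mem_qx]; exact ⟨0, map_zero _⟩

theorem st_add_q {x : V} {c d : D V} (hc : c ∈ T.qx x) (hd : d ∈ T.qx x) : c + d ∈ T.qx x := by
  rw [mem_qx] at *
  obtain ⟨a, rfl⟩ := hc
  obtain ⟨b, rfl⟩ := hd
  exact ⟨a + b, map_add _ _ _⟩

theorem st_vx_iff {x v : V} : v ∈ T.vx x ↔ ∀ c ∈ T.qx x, c v = 0 := by
  constructor
  · intro h c hc
    rw [mem_vx] at h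
    rw [mem_qx] at hc
    obtain ⟨y, rfl⟩ := hc
    rw [T.symm', h]; rfl
  · intro h
    rw [mem_vx]
    ext y
    rw [T.symm']
    exact h _ (by rw [mem_qx]; exact ⟨y, rfl⟩)

end Toy

theorem st_rho_pos (T : Toy V) (h1 : ∀ x, (T.vx x).card * 4 ^ T.rho x = Fintype.card V) {x : V}
    (hx : x ≠ 0) : 1 ≤ T.rho x := by
  by_contra h
  have h0 : T.rho x = 0 := by omega
  have h2 := h1 x
  rw [h0, pow_zero, mul_one] at h2
  have h3 : T.vx x = univ := (card_eq_iff_eq_univ _).1 h2
  refine hx (T.nondeg x fun y => ?_)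
  have h4 : y ∈ T.vx x := by rw [h3]; exact mem_univ y
  simpa using h4

theorem st_eight (T : Toy V) (hV : ∃ x : V, x ≠ 0) (h8 : Fintype.card V = 8)
    (h1 : ∀ x, (T.vx x).card * 4 ^ T.rho x = Fintype.card V) :
    ∃ φ : D V, φ ≠ 0 ∧ (∀ x y, φ x = 1 → T.t x y = 0 → y = 0 ∨ y = x) ∧
      ∀ x y, φ x = 0 → φ y = 0 → T.t x y = 0 ∨ T.t x y = φ := by
  obtain ⟨x0, hx0⟩ := hV
  obtain ⟨φ, hφ⟩ : ∃ φ : D V, φ x0 ≠ 0 := by
    by_contra hh
    push Not at hh
    exact hx0 ((Module.forall_dual_apply_eq_zero_iff (ZMod 2) x0).1 hh)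
  have hφ0 : φ ≠ 0 := fun h => hφ (by rw [h]; rfl)
  have hv : ∀ x : V, x ≠ 0 → ∀ y, T.t x y = 0 → y = 0 ∨ y = x := by
    intro x hx y hy
    have h2 := st_rho_pos T h1 hx
    have h3 := h1 x
    rw [h8] at h3
    have h4 : T.rho x ≤ 1 := by
      by_contra h
      have h5 : 4 ^ 2 ≤ 4 ^ T.rho x := Nat.pow_le_pow_right (by norm_num) (by omega)
      have h6 : 1 ≤ (T.vx x).card := card_pos.2 ⟨0, T.st_zero x⟩
      nlinarith
    have h5 : T.rho x = 1 := by omega
    rw [h5] at h3
    exact st_two (by omega) (T.st_zero x) (T.st_self x) hx (by simpa using hy)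
  refine ⟨φ, hφ0, fun x y hx hy => hv x (fun h => ?_) y hy, fun x y hx hy => ?_⟩
  · rw [h, map_zero] at hx
    exact absurd hx (by decide)
  · by_cases hc : T.t x y = 0
    · exact Or.inl hc
    right
    have hx0 : x ≠ 0 := fun h => hc (by rw [h, map_zero]; rfl)
    have hy0 : y ≠ 0 := fun h => hc (by rw [h, map_zero])
    have hxy : x ≠ y := fun h => hc (by rw [h]; exact T.alt y)
    refine st_eq_of_ker hc fun z hz => ?_
    have h2 := st_ker_card hφ0
    rw [h8] at h2
    have h3 := st_four (s := univ.filter (fun z : V => φ z = 0)) (x := x) (y := y) (z := z)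
      (by omega) (by simp) (by simp [hx]) (by simp [hy]) (by simp [hx, hy]) hx0 hy0 hxy (by simp [hz])
    rcases h3 with rfl | rfl | rfl | rfl
    · exact map_zero _
    · exact T.st_val _ _
    · exact T.st_val' _ _
    · rw [map_add, T.st_val, T.st_val', add_zero]

theorem st_main (T : Toy V) (b : V) (hb : b ≠ 0) (hvb : ∀ y, T.t b y = 0 → y = 0 ∨ y = b)
    (hR : 2 ≤ T.rho b) (hd : ∀ y, y ≠ 0 → T.rho y = 1 ∨ T.rho y = T.rho b)
    (h1 : ∀ x, (T.vx x).card * 4 ^ T.rho x = Fintype.card V)
    (h2 : ∀ x, (T.qx x).card = 4 ^ T.rho x)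
    (h3 : ∀ x c, c ∈ T.qx x ↔ ∀ v ∈ T.vx x, c v = 0)
    (h4 : ∀ x y, (T.vx x ∩ T.vx y).card * 2 ^ (T.rho x + T.rho y + T.rho (x + y)) =
      Fintype.card V) :
    ∃ φ : D V, φ ≠ 0 ∧ (∀ x y, φ x = 1 → T.t x y = 0 → y = 0 ∨ y = x) ∧
      ∀ x y, φ x = 0 → φ y = 0 → T.t x y = 0 ∨ T.t x y = φ := by
  set R := T.rho b with hRdef
  have hcb : (T.vx b).card = 2 := by
    have e : T.vx b = {0, b} := by
      ext y
      simp only [Toy.mem_vx, mem_insert, mem_singleton]
      constructor
      · exact hvb y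
      · rintro (rfl | rfl)
        · exact map_zero _
        · exact T.alt _
    rw [e, card_insert_of_notMem (by simpa using hb.symm), card_singleton]
  have hN : 2 * 4 ^ R = Fintype.card V := by rw [← h1 b, hcb]
  have hpos : 0 < 4 ^ R := pow_pos (by norm_num) _
  have hρ0 : T.rho 0 = 0 := by
    have e := h2 0
    have e1 : T.qx 0 = {0} := by
      ext c
      simp only [Toy.mem_qx, mem_singleton, map_zero, LinearMap.zero_apply]
      constructor
      · rintro ⟨_, h⟩; exact h.symm
      · intro h; exact ⟨0, h.symm⟩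
    rw [e1, card_singleton] at e
    by_contra hh
    have : 4 ^ 1 ≤ 4 ^ T.rho 0 := Nat.pow_le_pow_right (by norm_num) (by omega)
    omega
  have hv2 : ∀ x, T.rho x = R → ∀ y, T.t x y = 0 → y = 0 ∨ y = x := by
    intro x hx y hy
    have e := h1 x
    rw [hx, ← hN] at e
    have e1 : (T.vx x).card = 2 := Nat.eq_of_mul_eq_mul_right hpos e
    refine st_two e1 (T.st_zero x) (T.st_self x) (fun h => ?_) (by simpa using hy)
    rw [h, hρ0] at hx
    omega
  -- the flip
  have hflip : ∀ x y, T.rho x = R → y ≠ 0 → y ≠ x → T.rho y + T.rho (x + y) = R + 1 := by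
    intro x y hx hy hyx
    have e1 : T.vx x ∩ T.vx y = {0} := by
      ext z
      simp only [mem_inter, Toy.mem_vx, mem_singleton]
      constructor
      · rintro ⟨a1, a2⟩
        rcases hv2 x hx z a1 with h | h
        · exact h
        · subst h
          rcases hv2 z hx y (T.st_comm a2) with h | h
          · exact absurd h hy
          · exact absurd h hyx
      · rintro rfl
        exact ⟨map_zero _, map_zero _⟩
    have e2 := h4 x y
    rw [e1, card_singleton, one_mul, ← hN, hx] at e2
    have e3 : 2 * 4 ^ R = 2 ^ (R + (R + 1)) := by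
      rw [show (4 : ℕ) = 2 ^ 2 by norm_num, ← pow_mul, pow_add, pow_add, two_mul R, pow_add]
      ring
    rw [e3] at e2
    have e4 := Nat.pow_right_injective (le_refl 2) e2
    omega
  have hx_or : ∀ x y, T.rho x = R → y ≠ 0 → y ≠ x → (T.rho y = R ↔ T.rho (x + y) ≠ R) := by
    intro x y hx hy hyx
    have e := hflip x y hx hy hyx
    have hxy : x + y ≠ 0 := fun h => hyx (st_eq_of_add h).symm
    rcases hd y hy with a | a <;> rcases hd (x + y) hxy with a' | a' <;> omega
  -- x + H is the set of elements of rank R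
  have hH : ∀ x y, T.rho x = R → (T.rho y ≠ R ↔ T.rho (x + y) = R) := by
    intro x y hx
    by_cases hy : y = 0
    · subst hy
      rw [add_zero, hρ0]
      constructor
      · intro _; exact hx
      · intro _ h; omega
    by_cases hyx : y = x
    · subst hyx
      rw [st_add_self, hρ0]
      constructor
      · intro h; exact absurd hx h
      · intro h; omega
    have := hx_or x y hx hy hyx
    tauto
  -- the functional
  let f : V → ZMod 2 := fun x => if T.rho x = R then 1 else 0
  have hf : ∀ x y, f (x + y) = f x + f y := by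
    intro x y
    simp only [f]
    by_cases hx : T.rho x = R
    · by_cases hy : T.rho y = R
      · have : ¬ T.rho (x + y) = R := fun h => (hH x y hx).2 h hy
        rw [if_neg this, if_pos hx, if_pos hy]; decide
      · have : T.rho (x + y) = R := (hH x y hx).1 hy
        rw [if_pos this, if_pos hx, if_neg hy]; decide
    · by_cases hy : T.rho y = R
      · have : T.rho (y + x) = R := (hH y x hy).1 hx
        rw [add_comm x y, if_pos this, if_pos hy, if_neg hx]; decide
      · have e1 : T.rho (b + x) = R := (hH b x rfl).1 hx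
        have e2 : T.rho (b + x + y) = R := (hH _ y e1).1 hy
        have e3 : ¬ T.rho (x + y) = R := (hH b (x + y) rfl).2 (by rw [← add_assoc]; exact e2)
        rw [if_neg e3, if_neg hx, if_neg hy]; decide
  let φ : D V := (AddMonoidHom.mk' f hf).toZModLinearMap 2
  have hφ : ∀ x, φ x = f x := fun x => rfl
  have hφ1 : ∀ x, φ x = 1 ↔ T.rho x = R := by
    intro x
    rw [hφ]
    simp only [f]
    split_ifs with h
    · simp [h]
    · simp [h]
  have hφ0 : ∀ x, φ x = 0 ↔ T.rho x ≠ R := by
    intro x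
    rw [hφ]
    simp only [f]
    split_ifs with h
    · simp [h]
    · simp [h]
  have hφn : φ ≠ 0 := by
    intro h
    have e : φ b = 1 := (hφ1 b).2 rfl
    rw [h, LinearMap.zero_apply] at e
    exact absurd e (by decide)
  refine ⟨φ, hφn, fun x y hx hy => hv2 x ((hφ1 x).1 hx) y hy, fun x y hx hy => ?_⟩
  by_cases hc : T.t x y = 0
  · exact Or.inl hc
  right
  by_contra hcφ
  have hx0 : x ≠ 0 := fun h => hc (by rw [h, map_zero]; rfl)
  have hy0 : y ≠ 0 := fun h => hc (by rw [h, map_zero])
  have hxy : x ≠ y := fun h => hc (by rw [h]; exact T.alt y)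
  have hr : ∀ z, z ≠ 0 → φ z = 0 → T.rho z = 1 := by
    intro z hz hz'
    rcases hd z hz with h | h
    · exact h
    · exact absurd h ((hφ0 z).1 hz')
  have hrx := hr x hx0 hx
  have hry := hr y hy0 hy
  have hrxy : T.rho (x + y) = 1 := hr _ (fun h => hxy (st_eq_of_add h)) (by rw [map_add, hx, hy, add_zero])
  -- φ lies in both
  have hφq : ∀ z, z ≠ 0 → T.rho z = 1 → φ ∈ T.qx z := by
    intro z hz hz1
    rw [h3]
    intro v hv
    by_contra hne
    have e1 := (hφ1 v).1 ((st_z2 _).resolve_left hne)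
    rw [Toy.mem_vx] at hv
    rcases hv2 v e1 z (T.st_comm hv) with h | h
    · exact hz h
    · subst h; omega
  have hq4 : ∀ z, z ≠ 0 → T.rho z = 1 → T.t x y ∈ T.qx z → ∀ d ∈ T.qx z,
      d = 0 ∨ d = T.t x y ∨ d = φ ∨ d = T.t x y + φ := by
    intro z hz hz1 hcz d hdz
    exact st_four (s := T.qx z) (by rw [h2, hz1]; norm_num) (T.st_zero_q z) hcz (hφq z hz hz1)
      (T.st_add_q hcz (hφq z hz hz1)) hc hφn hcφ hdz
  have hcx : T.t x y ∈ T.qx x := by rw [Toy.mem_qx]; exact ⟨y, rfl⟩
  have hcy : T.t x y ∈ T.qx y := by rw [Toy.mem_qx]; exact ⟨x, T.symm y x⟩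
  have hsub : ∀ z w, z ≠ 0 → T.rho z = 1 → T.t x y ∈ T.qx z → w ≠ 0 → T.rho w = 1 →
      T.t x y ∈ T.qx w → T.vx z ⊆ T.vx w := by
    intro z w hz hz1 hcz hw hw1 hcw v hv
    rw [T.st_vx_iff] at hv ⊢
    intro d hdw
    have e1 := hv _ hcz
    have e2 := hv _ (hφq z hz hz1)
    rcases hq4 w hw hw1 hcw d hdw with rfl | rfl | rfl | rfl
    · rfl
    · exact e1
    · exact e2
    · rw [LinearMap.add_apply, e1, e2, add_zero]
  have e1 : T.vx x ∩ T.vx y = T.vx x :=
    inter_eq_left.2 (hsub x y hx0 hrx hcx hy0 hry hcy)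
  have e2 := h4 x y
  rw [e1, hrx, hry, hrxy] at e2
  have e3 := h1 x
  rw [hrx] at e3
  have e4 : 0 < Fintype.card V := by omega
  omega

theorem struct (hcard : Stmt_card) (hdich : Stmt_dich) : Stmt_struct := by
  intro V _ _ _ T hV
  obtain ⟨h1, h2, h3, h4⟩ := hcard V T
  obtain ⟨b, hb, hvb, h8 | ⟨hR, hd⟩⟩ := hdich V T hV
  · exact st_eight T hV h8 h1
  · exact st_main T b hb hvb hR hd h1 h2 h3 h4

end

end Pool.Agent.TOYW
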