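import Pool.Agent.TOYW.Att
import Pool.Agent.TOYW.Dich
import Pool.Agent.TOYW.Struct

/-!
Toy worlds are `φ ∧ ω`.
-/

namespace Pool.Agent.TOYW

theorem struct_proof : Stmt_struct := struct card_proof (dich_proof att_proof)

end Pool.Agent.TOYW
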