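import Pool.Agent.TOYW.Sym3
import Pool.Agent.TOYW.Defs

/-!
From quaternionic data to the interface `Toy`.
-/

set_option autoImplicit false
set_option linter.unusedSectionVars false

namespace Pool.Agent.TOYW

open Pool.Agent.ETCP
open Pool.Agent.Helper58.PLine (QData)

variable {V Q : Type} [AddCommGroup V] [Module (ZMod 2) V] {S : QData V Q}

/-- the toy world of `S` -/
noncomputable def GHyp.toToy (h : GHyp S) (hnd : ∀ x, (∀ y, C S x y) → x = 0) : Toy V where
  t := h.tau
  symm x y := by
    apply LinearMap.ext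
    intro v
    exact h.gworld.symm x y v
  symm' x y z := h.gworld.rot x y z
  alt x := by
    apply LinearMap.ext
    intro v
    exact h.gworld.alt x v
  link x y a b hab := h.gworld.link x a y b hab
  cov c hc h1 b hb := by
    obtain ⟨x, y, rfl⟩ := h1
    exact h.gworld.cov x y b hb
  nondeg x hx := hnd x fun y => (h.tau_eq_zero x y).1 (hx y)

@[simp] theorem GHyp.toToy_t (h : GHyp S) (hnd : ∀ x, (∀ y, C S x y) → x = 0) (x y v : V) :
    (h.toToy hnd).t x y v = 0 ↔ G S x y v := h.tau_zero x y v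

theorem GHyp.toToy_zero (h : GHyp S) (hnd : ∀ x, (∀ y, C S x y) → x = 0) (x y : V) :
    (h.toToy hnd).t x y = 0 ↔ C S x y := h.tau_eq_zero x y

theorem GHyp.toToy_eq (h : GHyp S) (hnd : ∀ x, (∀ y, C S x y) → x = 0) (a b c d : V) :
    (h.toToy hnd).t a b = (h.toToy hnd).t c d ↔ S.q a b = S.q c d := h.tau_eq a b c d

end Pool.Agent.TOYW
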