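import Pool.Agent.TOYW.Good

/-!
Ranks of the neighbours of a slot of a good symbol: at most two values, swapped by elements of equal rank.
-/

set_option linter.unusedSectionVars false
set_option linter.unusedVariables false

namespace Pool.Agent.TOYW

open Pool.Agent.ESL Finset
open scoped Classical

variable {V : Type} [AddCommGroup V] [Module (ZMod 2) V] [Fintype V]

namespace Toy

variable (T : Toy V)

/-- elements of `V_y` of the rank of `y` -/
noncomputable def Xs (y : V) : Finset V := (T.vx y).filter (fun b => T.rho b = T.rho y)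

/-- rank preserving translations of `N(y)` -/
noncomputable def Hs (c : D V) (y : V) : Finset V :=
  (T.vx y).filter (fun h => ∀ z ∈ T.nb c y, T.rho (z + h) = T.rho z)

variable {T}

theorem mem_Xs {y b : V} : b ∈ T.Xs y ↔ T.t y b = 0 ∧ T.rho b = T.rho y := by simp [Xs]

theorem mem_Hs {c : D V} {y h : V} :
    h ∈ T.Hs c y ↔ T.t y h = 0 ∧ ∀ z, T.t y z = c → T.rho (z + h) = T.rho z := by simp [Hs]

theorem vx_two {y : V} (hy : y ≠ 0) : 2 ≤ (T.vx y).card := by
  have : ({0, y} : Finset V) ⊆ T.vx y := by
    intro w hw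
    rw [mem_insert, mem_singleton] at hw
    rcases hw with rfl | rfl
    · simp [zero_right]
    · simp [T.alt]
  have h := card_le_card this
  rwa [card_pair (Ne.symm hy)] at h

/-- many elements of `V_y` have the rank of `y` -/
theorem Xs_big (hatt : ∀ c : D V, c ≠ 0 → ∃ x y, T.t x y = c) {c : D V} (hg : T.Good c) {y : V}
    (hy : y ∈ T.S c) : (T.vx y).card < 3 * (T.Xs y).card := by
  have hy0 : y ≠ 0 := slot_ne hg.1 hy
  have h1 := T.sum_swap y (fun _ => 1)
  have h2 : (ann y).card ≤ ∑ c ∈ ann y, ∑ v ∈ T.vx y ∩ T.S c, 1 := by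
    rw [card_eq_sum_ones]
    apply sum_le_sum
    intro c' hc'
    rw [mem_ann] at hc'
    obtain ⟨s, hs, hbs⟩ := T.cov' hatt hc'.1 hc'.2
    have hs' : s ∈ T.vx y ∩ T.S c' := by simp [hs, hbs]
    calc 1 ≤ (T.vx y ∩ T.S c').card := card_pos.2 ⟨s, hs'⟩
      _ = _ := by simp
  have h3 : 4 * ∑ v ∈ T.vx y, 1 * 4 ^ T.rho v ≤ (T.vx y).card * 4 ^ T.rho y + 3 * ((T.Xs y).card * 4 ^ T.rho y) := by
    have e1 : ∀ v ∈ T.vx y, 4 * (1 * 4 ^ T.rho v) ≤ 4 ^ T.rho y + (if T.rho v = T.rho y then 3 * 4 ^ T.rho y else 0) := by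
      intro v hv
      rw [mem_vx] at hv
      have := (good_le hg hy hv).1
      split_ifs with h
      · rw [h]; omega
      · have : 4 ^ (T.rho v + 1) ≤ 4 ^ T.rho y := Nat.pow_le_pow_right (by norm_num) (by omega)
        rw [pow_succ] at this
        omega
    have e2 := sum_le_sum e1
    rw [← mul_sum, sum_add_distrib, sum_const, smul_eq_mul, ← sum_filter, sum_const, smul_eq_mul] at e2
    have e3 : (T.vx y).filter (fun v => T.rho v = T.rho y) = T.Xs y := rfl
    rw [e3] at e2
    calc _ ≤ _ := e2
      _ = _ := by ring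
  have h4 := T.vx_card y
  have h5 := ann_card hy0
  have h6 : ∑ v ∈ T.vx y, 1 = (T.vx y).card := by simp
  have h7 := vx_two (T := T) hy0
  by_contra hcon
  have h8 : 3 * ((T.Xs y).card * 4 ^ T.rho y) ≤ (T.vx y).card * 4 ^ T.rho y := by
    have : 3 * (T.Xs y).card ≤ (T.vx y).card := by omega
    calc 3 * ((T.Xs y).card * 4 ^ T.rho y) = (3 * (T.Xs y).card) * 4 ^ T.rho y := by ring
      _ ≤ _ := Nat.mul_le_mul_right _ this
  omega

theorem Xs_swap {c : D V} (hg : T.Good c) {y b z : V} (hb : b ∈ T.Xs y) (hz : T.t y z = c) :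
    T.rho z + T.rho (z + b) + T.rho y = fr V := by
  rw [mem_Xs] at hb
  exact (good_le hg (mem_S_of hz) hb.1).2 hb.2 z (by rw [mem_nb]; exact hz)

theorem Hs_add {c : D V} {y a b : V} (ha : a ∈ T.Hs c y) (hb : b ∈ T.Hs c y) : a + b ∈ T.Hs c y := by
  rw [mem_Hs] at ha hb ⊢
  refine ⟨by rw [T.tadd, ha.1, hb.1, add_zero], ?_⟩
  intro z hz
  rw [← add_assoc, hb.2 (z + a) (nb_add hz ha.1), ha.2 z hz]

theorem Xs_add {c : D V} (hg : T.Good c) {y b : V} (hb : b ∈ T.Xs y) : b + y ∈ T.Hs c y := by
  have hb' := mem_Xs.1 hb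
  rw [mem_Hs]
  refine ⟨by rw [T.tadd, hb'.1, T.alt, add_zero], ?_⟩
  intro z hz
  have h1 := Xs_swap hg hb hz
  have h2 := good_trip hg (nb_add hz hb'.1)
  rw [← add_assoc]
  omega

theorem card_Xs_le_Hs {c : D V} (hg : T.Good c) (y : V) : (T.Xs y).card ≤ (T.Hs c y).card := by
  apply card_le_card_of_injOn (fun b => b + y)
  · intro b hb
    exact Xs_add hg hb
  · intro a _ b _ h
    exact add_right_cancel h

/-- (†) -/
theorem Hs_or (hatt : ∀ c : D V, c ≠ 0 → ∃ x y, T.t x y = c) {c : D V} (hg : T.Good c) {y b : V}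
    (hy : y ∈ T.S c) (hb : T.t y b = 0) : b ∈ T.Hs c y ∨ b + y ∈ T.Hs c y := by
  by_cases hyH : y ∈ T.Hs c y
  · left
    rw [mem_Hs] at hyH ⊢
    refine ⟨hb, ?_⟩
    intro z hz
    have h1 := hyH.2 z hz
    have h2 := hyH.2 (z + b) (nb_add hz hb)
    have h3 := good_trip hg hz
    have h4 := good_trip hg (nb_add hz hb)
    omega
  · by_contra hcon
    rw [not_or] at hcon
    have h1 := Xs_big hatt hg hy
    have h2 := card_Xs_le_Hs hg y
    have key : (T.Hs c y ∪ ((T.Hs c y).image (fun h => h + y) ∪ (T.Hs c y).image (fun h => h + b))).card =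
        3 * (T.Hs c y).card := by
      rw [card_union_of_disjoint, card_union_of_disjoint, card_image_of_injective _ (add_left_injective y),
        card_image_of_injective _ (add_left_injective b)]
      · ring
      · rw [disjoint_left]
        intro a ha ha'
        rw [mem_image] at ha ha'
        obtain ⟨h, hh, rfl⟩ := ha
        obtain ⟨h', hh', e⟩ := ha'
        apply hcon.2
        have e' : b + y = h' + h := by
          have : h' + b + (h + y) = 0 := by rw [e, add_self']
          have h5 : (b + y) + (h' + h) = 0 := by rw [← this]; abel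
          exact eq_of_add h5
        rw [e']
        exact Hs_add hh' hh
      · rw [disjoint_left]
        intro a ha ha'
        rw [mem_union, mem_image, mem_image] at ha'
        rcases ha' with ⟨h, hh, rfl⟩ | ⟨h, hh, rfl⟩
        · apply hyH
          have e : y = h + y + h := by
            have h5 : y + (h + y + h) = 0 := by
              have : y + (h + y + h) = (y + y) + (h + h) := by abel
              rw [this, add_self', add_self', add_zero]
            exact eq_of_add h5
          have h6 := Hs_add ha hh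
          rwa [← e] at h6
        · apply hcon.1
          have e : b = h + b + h := by
            have h5 : b + (h + b + h) = 0 := by
              have : b + (h + b + h) = (b + b) + (h + h) := by abel
              rw [this, add_self', add_self', add_zero]
            exact eq_of_add h5
          have h6 := Hs_add ha hh
          rwa [← e] at h6
    have hsub : T.Hs c y ∪ ((T.Hs c y).image (fun h => h + y) ∪ (T.Hs c y).image (fun h => h + b)) ⊆ T.vx y := by
      intro a ha
      rw [mem_union, mem_union, mem_image, mem_image] at ha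
      rw [mem_vx]
      rcases ha with ha | ⟨h, hh, rfl⟩ | ⟨h, hh, rfl⟩
      · exact (mem_Hs.1 ha).1
      · rw [T.tadd, (mem_Hs.1 hh).1, T.alt, add_zero]
      · rw [T.tadd, (mem_Hs.1 hh).1, hb, add_zero]
    have h3 := card_le_card hsub
    rw [key] at h3
    omega

/-- ranks on `N(y)` -/
theorem two_values (hatt : ∀ c : D V, c ≠ 0 → ∃ x y, T.t x y = c) {c : D V} (hg : T.Good c) {y z z' : V}
    (hz : T.t y z = c) (hz' : T.t y z' = c) :
    (T.rho z' = T.rho z ∧ T.rho (z' + y) = T.rho (z + y)) ∨
    (T.rho z' = T.rho (z + y) ∧ T.rho (z' + y) = T.rho z) := by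
  have h1 := good_trip hg hz
  have h2 := good_trip hg hz'
  have hb : T.t y (z + z') = 0 := nb_sub hz hz'
  rcases Hs_or hatt hg (mem_S_of hz) hb with h | h
  · left
    have h3 := (mem_Hs.1 h).2 z hz
    rw [add_add_self] at h3
    omega
  · right
    have h3 := (mem_Hs.1 h).2 z hz
    have e : z + (z + z' + y) = z' + y := by rw [add_assoc, add_add_self]
    rw [e] at h3
    omega

/-- the three ranks of a triangle are `r, a, a` up to order -/
def Perm3 (T : Toy V) (r a : ℕ) (y z : V) : Prop :=
  (T.rho y = r ∧ T.rho z = a ∧ T.rho (z + y) = a) ∨ (T.rho y = a ∧ T.rho z = r ∧ T.rho (z + y) = a) ∨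
    (T.rho y = a ∧ T.rho z = a ∧ T.rho (z + y) = r)

theorem perm3_swap {r a : ℕ} {y z : V} (h : T.Perm3 r a y z) : T.Perm3 r a z y := by
  unfold Perm3 at *
  rw [add_comm y z]
  tauto

theorem perm3_step (hatt : ∀ c : D V, c ≠ 0 → ∃ x y, T.t x y = c) {c : D V} (hg : T.Good c) {r a : ℕ} {y z z' : V}
    (hz : T.t y z = c) (hz' : T.t y z' = c) (h : T.Perm3 r a y z) : T.Perm3 r a y z' := by
  have h1 := two_values hatt hg hz hz'
  unfold Perm3 at *
  omega

theorem perm3_all (hatt : ∀ c : D V, c ≠ 0 → ∃ x y, T.t x y = c) {c : D V} (hg : T.Good c) {r a : ℕ} {y z : V}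
    (hz : T.t y z = c) (h : T.Perm3 r a y z) : ∀ y' z', T.t y' z' = c → T.Perm3 r a y' z' := by
  intro y' z' hz'
  obtain ⟨w, h1, h2⟩ := common (mem_S_of hz) (mem_S_of hz')
  have h3 := perm3_step hatt hg hz h1 h
  have h4 := perm3_swap h3
  have h5 := perm3_step hatt hg (by rw [T.symm]; exact h1) (by rw [T.symm]; exact h2) h4
  have h6 := perm3_swap h5
  exact perm3_step hatt hg h2 hz' h6

/-- Case I or Case II -/
theorem cases (hatt : ∀ c : D V, c ≠ 0 → ∃ x y, T.t x y = c) {c : D V} (hg : T.Good c) {v : V} (hv : v ∈ T.S c)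
    (hmax : ∀ y, T.rho y ≤ T.rho v) :
    (∃ d, d < T.rho v ∧ fr V = 2 * T.rho v + d ∧ ∀ y z, T.t y z = c → T.Perm3 d (T.rho v) y z) ∨
    (∀ y ∈ T.S c, 2 * (T.Xs y).card ≤ (T.vx y).card) := by
  by_cases h : ∃ y ∈ T.S c, T.rho y < T.rho v ∧ ∀ z, T.t y z = c → T.rho (z + y) = T.rho z
  · left
    obtain ⟨y, hy, hyR, hyz⟩ := h
    obtain ⟨z, hz⟩ := mem_S.1 hy
    have h1 := hyz z hz
    have h2 := good_trip hg hz
    have h3 : T.Perm3 (T.rho y) (T.rho z) y z := Or.inl ⟨rfl, rfl, h1⟩
    have h4 := perm3_all hatt hg hz h3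
    obtain ⟨w, hw⟩ := mem_S.1 hv
    have h5 : T.rho z = T.rho v := by
      have := h4 v w hw
      have := hmax z
      unfold Perm3 at *
      omega
    rw [h5] at h4
    exact ⟨T.rho y, hyR, by omega, h4⟩
  · right
    push Not at h
    intro y hy
    by_cases hyR : T.rho y = T.rho v
    · -- pairs `{b, b + y}`
      have hy0 : y ≠ 0 := slot_ne hg.1 hy
      have hmax' : ∀ z, T.rho z ≤ T.rho y := by intro z; rw [hyR]; exact hmax z
      have h3R := T.step1 hatt hy0 hmax'
      have hd : Disjoint (T.Xs y) ((T.Xs y).image (fun b => b + y)) := by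
        rw [disjoint_left]
        intro a ha ha'
        rw [mem_image] at ha'
        obtain ⟨b, hb, rfl⟩ := ha'
        rw [mem_Xs] at ha hb
        have hb0 : b ≠ 0 := by
          rintro rfl
          have := T.rho_pos hy0
          have e := hb.2
          rw [T.rho_zero] at e
          omega
        have hby : b ≠ y := by
          rintro rfl
          have := T.rho_pos hy0
          have e := ha.2
          rw [add_self', T.rho_zero] at e
          omega
        have h5 := T.trip_comm hy0 hb0 (Ne.symm hby) hb.1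
        rw [add_comm y b] at h5
        omega
      have h1 : (T.Xs y ∪ (T.Xs y).image (fun b => b + y)).card = 2 * (T.Xs y).card := by
        rw [card_union_of_disjoint hd, card_image_of_injective _ (add_left_injective y)]
        ring
      have h2 : T.Xs y ∪ (T.Xs y).image (fun b => b + y) ⊆ T.vx y := by
        intro a ha
        rw [mem_union, mem_image] at ha
        rw [mem_vx]
        rcases ha with ha | ⟨b, hb, rfl⟩
        · exact (mem_Xs.1 ha).1
        · rw [T.tadd, (mem_Xs.1 hb).1, T.alt, add_zero]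
      rw [← h1]
      exact card_le_card h2
    · obtain ⟨z, hz, hne⟩ := h y hy (lt_of_le_of_ne (hmax y) hyR)
      have hd : Disjoint (T.Xs y) (T.Hs c y) := by
        rw [disjoint_left]
        intro b hb hb'
        have h1 := Xs_swap hg hb hz
        have h2 := (mem_Hs.1 hb').2 z hz
        have h3 := good_trip hg hz
        omega
      have h1 := card_Xs_le_Hs hg y
      have h2 : T.Xs y ∪ T.Hs c y ⊆ T.vx y := by
        intro a ha
        rw [mem_union] at ha
        rw [mem_vx]
        rcases ha with ha | ha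
        · exact (mem_Xs.1 ha).1
        · exact (mem_Hs.1 ha).1
      have h3 := card_le_card h2
      rw [card_union_of_disjoint hd] at h3
      omega

end Toy

end Pool.Agent.TOYW
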